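import Pool.Agent.helper33.Esc.Defs

/-!
Module K of the escape theorem (MP_6acca1_an): facts about the minimal action kernel.
-/

set_option linter.unusedSectionVars false

noncomputable section

namespace Esc

open MeasureTheory Set Filter Topology intervalIntegral
open scoped ContDiff

section ModuleK

variable {E : Type*} [NormedAddCommGroup E] [InnerProductSpace ℝ E] [CompleteSpace E]

/-! ### admissible controls -/

omit [CompleteSpace E] in
theorem Adm.ii {u : ℝ → E} (hu : Adm u) (a b : ℝ) : IntervalIntegrable u volume a b := by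
  obtain ⟨hm, C, hC⟩ := hu
  rw [intervalIntegrable_iff]
  exact Measure.integrableOn_of_bounded (M := C) (by simp) hm.aestronglyMeasurable
    (ae_of_all _ hC)

omit [CompleteSpace E] in
theorem Adm.sub_const {u : ℝ → E} (hu : Adm u) (v : E) : Adm (fun t => u t - v) := by
  obtain ⟨hm, C, hC⟩ := hu
  refine ⟨hm.sub stronglyMeasurable_const, C + ‖v‖, fun t => ?_⟩
  exact (norm_sub_le _ _).trans (by linarith [hC t])

omit [CompleteSpace E] in
theorem Adm.add_const {u : ℝ → E} (hu : Adm u) (v : E) : Adm (fun t => u t + v) := by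
  have := hu.sub_const (-v)
  simpa using this

omit [CompleteSpace E] in
theorem Adm.const (v : E) : Adm (fun _ : ℝ => v) :=
  ⟨stronglyMeasurable_const, ‖v‖, fun _ => le_refl _⟩

omit [CompleteSpace E] in
theorem Adm.sq_ii {u : ℝ → E} (hu : Adm u) (a b : ℝ) :
    IntervalIntegrable (fun t => ‖u t‖ ^ 2 / 2) volume a b := by
  obtain ⟨hm, C, hC⟩ := hu
  rw [intervalIntegrable_iff]
  refine Measure.integrableOn_of_bounded (M := C ^ 2 / 2) (by simp) ?_ (ae_of_all _ fun t => ?_)
  · exact ((hm.norm.measurable.pow_const 2).div_const 2).aestronglyMeasurable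
  · rw [Real.norm_of_nonneg (by positivity)]
    have h1 := hC t
    have h2 := norm_nonneg (u t)
    nlinarith

omit [CompleteSpace E] in
theorem Adm.inner_ii {u : ℝ → E} (hu : Adm u) (v : E) (a b : ℝ) :
    IntervalIntegrable (fun t => inner ℝ v (u t)) volume a b := by
  obtain ⟨hm, C, hC⟩ := hu
  rw [intervalIntegrable_iff]
  refine Measure.integrableOn_of_bounded (M := ‖v‖ * C) (by simp) ?_ (ae_of_all _ fun t => ?_)
  · exact ((innerSL ℝ v).continuous.comp_stronglyMeasurable hm).aestronglyMeasurable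
  · exact (norm_inner_le_norm _ _).trans (by gcongr; exact hC t)

theorem traj_cont {u : ℝ → E} (hu : Adm u) (a : ℝ) (z : E) : Continuous (traj a z u) := by
  unfold traj
  exact continuous_const.add (intervalIntegral.continuous_primitive (fun a b => hu.ii a b) a)

theorem f_traj_ii {M : ℝ} {f : E → ℝ → ℝ} (hf : Good M f) {u : ℝ → E} (hu : Adm u) (a : ℝ) (z : E)
    (c d : ℝ) : IntervalIntegrable (fun t => f (traj a z u t) t) volume c d :=
  (hf.cont.comp ((traj_cont hu a z).prodMk continuous_id)).intervalIntegrable _ _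

theorem act_eq {M : ℝ} {f : E → ℝ → ℝ} (hf : Good M f) (v : E) (a b : ℝ) (z : E) {u : ℝ → E}
    (hu : Adm u) : act f v a b z u = (∫ t in a..b, ‖u t - v‖ ^ 2 / 2)
      + ∫ t in a..b, f (traj a z u t) t := by
  unfold act
  exact integral_add ((hu.sub_const v).sq_ii a b) (f_traj_ii hf hu a z a b)

/-- Jensen -/
theorem jensen {u : ℝ → E} (hu : Adm u) {a b : ℝ} (hab : a < b) :
    ‖∫ t in a..b, u t‖ ^ 2 / (2 * (b - a)) ≤ ∫ t in a..b, ‖u t‖ ^ 2 / 2 := by
  set I := ∫ t in a..b, u t with hI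
  set m : E := (1 / (b - a)) • I with hm
  have hba : 0 < b - a := by linarith
  have h0 : 0 ≤ ∫ t in a..b, ‖u t - m‖ ^ 2 / 2 :=
    intervalIntegral.integral_nonneg hab.le (fun t _ => by positivity)
  have h1 : (∫ t in a..b, ‖u t - m‖ ^ 2 / 2) = (∫ t in a..b, ‖u t‖ ^ 2 / 2)
      - inner ℝ m I + (b - a) * (‖m‖ ^ 2 / 2) := by
    have e1 : ∀ t, ‖u t - m‖ ^ 2 / 2 = ‖u t‖ ^ 2 / 2 - inner ℝ m (u t) + ‖m‖ ^ 2 / 2 := by
      intro t
      rw [norm_sub_sq_real, real_inner_comm]
      ring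
    simp_rw [e1]
    rw [integral_add ((hu.sq_ii a b).sub (hu.inner_ii m a b)) (by simp),
      integral_sub (hu.sq_ii a b) (hu.inner_ii m a b)]
    have e2 : (∫ t in a..b, inner ℝ m (u t)) = inner ℝ m I := by
      have := (innerSL ℝ m).intervalIntegral_comp_comm (hu.ii a b)
      simpa using this
    rw [e2]
    simp only [intervalIntegral.integral_const, smul_eq_mul]
  rw [h1] at h0
  have h2 : inner ℝ m I = ‖I‖ ^ 2 / (b - a) := by
    rw [hm, real_inner_smul_left, real_inner_self_eq_norm_sq]; ring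
  have h3 : ‖m‖ ^ 2 = ‖I‖ ^ 2 / (b - a) ^ 2 := by
    rw [hm, norm_smul, mul_pow, Real.norm_of_nonneg (by positivity)]
    field_simp
  rw [h2, h3] at h0
  have h4 : ‖I‖ ^ 2 / (2 * (b - a)) = ‖I‖ ^ 2 / (b - a) - (b - a) * (‖I‖ ^ 2 / (b - a) ^ 2 / 2) := by
    field_simp
    ring
  rw [h4]; linarith

theorem f_int_bd {M : ℝ} {f : E → ℝ → ℝ} (hf : Good M f) {u : ℝ → E} (a : ℝ) (z : E)
    {c d : ℝ} (hcd : c ≤ d) : |∫ t in c..d, f (traj a z u t) t| ≤ M * (d - c) := by
  have := norm_integral_le_of_norm_le_const (a := c) (b := d) (C := M)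
    (f := fun t => f (traj a z u t) t) (fun t _ => hf.bd _ _)
  rwa [abs_of_nonneg (by linarith : 0 ≤ d - c)] at this

/-- the energy of a control is bounded by its action -/
theorem energy_le_act {M : ℝ} {f : E → ℝ → ℝ} (hf : Good M f) (v : E) {a b : ℝ} (hab : a ≤ b) (z : E)
    {u : ℝ → E} (hu : Adm u) : (∫ t in a..b, ‖u t - v‖ ^ 2 / 2) ≤ act f v a b z u + M * (b - a) := by
  rw [act_eq hf v a b z hu]
  have := abs_le.mp (f_int_bd hf (u := u) a z hab)
  linarith [this.1]

theorem act_lower {M : ℝ} {f : E → ℝ → ℝ} (hf : Good M f) (v : E) {a b : ℝ} (hab : a < b) (z : E)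
    {u : ℝ → E} (hu : Adm u) :
    ‖traj a z u b - z - (b - a) • v‖ ^ 2 / (2 * (b - a)) - M * (b - a) ≤ act f v a b z u := by
  have h1 := energy_le_act hf v hab.le z hu
  have h2 := jensen (hu.sub_const v) hab
  have h3 : (∫ t in a..b, (u t - v)) = traj a z u b - z - (b - a) • v := by
    rw [integral_sub (hu.ii a b) (by simp)]
    simp [traj]
  rw [h3] at h2
  linarith

theorem act_bddBelow {M : ℝ} {f : E → ℝ → ℝ} (hf : Good M f) (v : E) {a b : ℝ} (hab : a < b)
    (z z' : E) : BddBelow {c | ∃ u : ℝ → E, Adm u ∧ traj a z u b = z' ∧ c = act f v a b z u} := by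
  refine ⟨- M * (b - a), ?_⟩
  rintro c ⟨u, hu, -, rfl⟩
  have h := act_lower hf v hab z hu
  have h2 : 0 ≤ ‖traj a z u b - z - (b - a) • v‖ ^ 2 / (2 * (b - a)) := by
    have : 0 < b - a := by linarith
    positivity
  linarith

/-- straight line -/
theorem traj_line (z z' : E) {a b : ℝ} (hab : a < b) :
    traj a z (fun _ => (1 / (b - a)) • (z' - z)) b = z' := by
  have hba : b - a ≠ 0 := by linarith
  simp only [traj, intervalIntegral.integral_const, smul_smul]
  rw [mul_one_div_cancel hba, one_smul]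
  abel

theorem act_set_nonempty (f : E → ℝ → ℝ) (v : E) {a b : ℝ} (hab : a < b) (z z' : E) :
    {c | ∃ u : ℝ → E, Adm u ∧ traj a z u b = z' ∧ c = act f v a b z u}.Nonempty :=
  ⟨_, _, Adm.const _, traj_line z z' hab, rfl⟩

/-- the kernel is a lower bound of the action of every admissible control -/
theorem ker_le_act {M : ℝ} {f : E → ℝ → ℝ} (hf : Good M f) (v : E) {a b : ℝ} (hab : a < b) (z : E)
    {u : ℝ → E} (hu : Adm u) : ker f v a b z (traj a z u b) ≤ act f v a b z u :=
  csInf_le (act_bddBelow hf v hab z _) ⟨u, hu, rfl, rfl⟩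

theorem ker_le_act' {M : ℝ} {f : E → ℝ → ℝ} (hf : Good M f) (v : E) {a b : ℝ} (hab : a < b) {z z' : E}
    {u : ℝ → E} (hu : Adm u) (hz : traj a z u b = z') : ker f v a b z z' ≤ act f v a b z u := by
  rw [← hz]; exact ker_le_act hf v hab z hu

theorem le_ker {f : E → ℝ → ℝ} {v : E} {a b : ℝ} (hab : a < b) {z z' : E} {c : ℝ}
    (h : ∀ u, Adm u → traj a z u b = z' → c ≤ act f v a b z u) : c ≤ ker f v a b z z' := by
  apply le_csInf (act_set_nonempty f v hab z z')
  rintro _ ⟨u, hu, hz, rfl⟩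
  exact h u hu hz

/-- near-minimizers -/
theorem exists_act_lt {M : ℝ} {f : E → ℝ → ℝ} (_hf : Good M f) (v : E) {a b : ℝ} (hab : a < b) (z z' : E)
    {ε : ℝ} (hε : 0 < ε) : ∃ u, Adm u ∧ traj a z u b = z' ∧ act f v a b z u < ker f v a b z z' + ε := by
  have := Real.lt_sInf_add_pos (act_set_nonempty f v hab z z') hε
  obtain ⟨_, ⟨u, hu, hz, rfl⟩, h⟩ := this
  exact ⟨u, hu, hz, h⟩

theorem ker_lower {M : ℝ} {f : E → ℝ → ℝ} (hf : Good M f) (v : E) {a b : ℝ} (hab : a < b) (z z' : E) :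
    ‖z' - z - (b - a) • v‖ ^ 2 / (2 * (b - a)) - M * (b - a) ≤ ker f v a b z z' := by
  apply le_ker hab
  rintro u hu rfl
  exact act_lower hf v hab z hu

theorem ker_upper {M : ℝ} {f : E → ℝ → ℝ} (hf : Good M f) (v : E) {a b : ℝ} (hab : a < b) (z z' : E) :
    ker f v a b z z' ≤ ‖z' - z - (b - a) • v‖ ^ 2 / (2 * (b - a)) + M * (b - a) := by
  refine (ker_le_act' hf v hab (Adm.const _) (traj_line z z' hab)).trans ?_
  rw [act_eq hf v a b z (Adm.const _)]
  have h1 := (abs_le.mp (f_int_bd hf (u := fun _ => (1 / (b - a)) • (z' - z)) a z hab.le)).2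
  have hba : 0 < b - a := by linarith
  have h2 : (∫ _t in a..b, ‖(1 / (b - a)) • (z' - z) - v‖ ^ 2 / 2)
      = ‖z' - z - (b - a) • v‖ ^ 2 / (2 * (b - a)) := by
    have e : (1 / (b - a)) • (z' - z) - v = (1 / (b - a)) • (z' - z - (b - a) • v) := by
      rw [smul_sub _ (z' - z), smul_smul, one_div_mul_cancel hba.ne', one_smul]
    rw [e, norm_smul, mul_pow, Real.norm_of_nonneg (by positivity)]
    simp only [intervalIntegral.integral_const, smul_eq_mul]
    field_simp
  linarith

theorem act_galilei {M : ℝ} {f : E → ℝ → ℝ} (hf : Good M f) (v : E) {a b : ℝ} (z : E) {u : ℝ → E}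
    (hu : Adm u) : act f v a b z u = act f 0 a b z u - inner ℝ v (traj a z u b - z)
      + (b - a) * ‖v‖ ^ 2 / 2 := by
  rw [act_eq hf v a b z hu, act_eq hf 0 a b z hu]
  have e1 : ∀ t, ‖u t - v‖ ^ 2 / 2 = ‖u t‖ ^ 2 / 2 - inner ℝ v (u t) + ‖v‖ ^ 2 / 2 := by
    intro t
    rw [norm_sub_sq_real, real_inner_comm]
    ring
  simp_rw [e1]
  rw [integral_add ((hu.sq_ii a b).sub (hu.inner_ii v a b)) (by simp),
    integral_sub (hu.sq_ii a b) (hu.inner_ii v a b)]
  have e2 : (∫ t in a..b, inner ℝ v (u t)) = inner ℝ v (traj a z u b - z) := by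
    have := (innerSL ℝ v).intervalIntegral_comp_comm (hu.ii a b)
    simpa [traj] using this
  rw [e2]
  simp only [sub_zero, intervalIntegral.integral_const, smul_eq_mul]
  ring

theorem ker_galilei {M : ℝ} {f : E → ℝ → ℝ} (hf : Good M f) (v : E) {a b : ℝ} (hab : a < b) (z z' : E) :
    ker f v a b z z' = ker f 0 a b z z' - inner ℝ v (z' - z) + (b - a) * ‖v‖ ^ 2 / 2 := by
  apply le_antisymm
  · have : ker f v a b z z' + inner ℝ v (z' - z) - (b - a) * ‖v‖ ^ 2 / 2 ≤ ker f 0 a b z z' := by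
      apply le_ker hab
      rintro u hu rfl
      have h1 := ker_le_act hf v hab z hu
      rw [act_galilei hf v z hu] at h1
      linarith
    linarith
  · apply le_ker hab
    rintro u hu rfl
    have h1 := ker_le_act hf 0 hab z hu
    rw [act_galilei hf v z hu]
    linarith

theorem act_mono {M : ℝ} {f f' : E → ℝ → ℝ} (hf : Good M f) (hf' : Good M f') {ρ : ℝ}
    (h : ∀ x t, f x t ≤ f' x t + ρ) (v : E) {a b : ℝ} (hab : a ≤ b) (z : E) {u : ℝ → E} (hu : Adm u) :
    act f v a b z u ≤ act f' v a b z u + ρ * (b - a) := by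
  rw [act_eq hf v a b z hu, act_eq hf' v a b z hu]
  have h1 : (∫ t in a..b, f (traj a z u t) t) ≤ ∫ t in a..b, (f' (traj a z u t) t + ρ) :=
    integral_mono_on hab (f_traj_ii hf hu a z a b) ((f_traj_ii hf' hu a z a b).add (by simp))
      (fun t _ => h _ _)
  rw [integral_add (f_traj_ii hf' hu a z a b) (by simp)] at h1
  simp only [intervalIntegral.integral_const, smul_eq_mul] at h1
  linarith

theorem ker_le_add {M ρ : ℝ} {f f' : E → ℝ → ℝ} (hf : Good M f) (hf' : Good M f')
    (h : ∀ x t, f x t ≤ f' x t + ρ) (v : E) {a b : ℝ} (hab : a < b) (z z' : E) :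
    ker f v a b z z' ≤ ker f' v a b z z' + ρ * (b - a) := by
  have : ker f v a b z z' - ρ * (b - a) ≤ ker f' v a b z z' := by
    apply le_ker hab
    intro u hu hz
    have h1 := ker_le_act' hf v hab hu hz
    have h2 := act_mono hf hf' h v hab.le z hu
    linarith
  linarith

theorem ker_sub_le {M ρ : ℝ} {f f' : E → ℝ → ℝ} (hf : Good M f) (hf' : Good M f')
    (h : ∀ x t, |f x t - f' x t| ≤ ρ) (v : E) {a b : ℝ} (hab : a < b) (z z' : E) :
    |ker f v a b z z' - ker f' v a b z z'| ≤ ρ * (b - a) := by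
  have h1 := ker_le_add (ρ := ρ) hf hf' (fun x t => by linarith [(abs_le.mp (h x t)).2]) v hab z z'
  have h2 := ker_le_add (ρ := ρ) hf' hf (fun x t => by linarith [(abs_le.mp (h x t)).1]) v hab z z'
  rw [abs_le]; constructor <;> linarith

theorem ker_mono {M : ℝ} {f f' : E → ℝ → ℝ} (hf : Good M f) (hf' : Good M f')
    (h : ∀ x t, f x t ≤ f' x t) (v : E) {a b : ℝ} (hab : a < b) (z z' : E) :
    ker f v a b z z' ≤ ker f' v a b z z' := by
  have := ker_le_add (ρ := 0) hf hf' (fun x t => by linarith [h x t]) v hab z z'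
  simpa using this

/-! ### change of the end points -/

theorem traj_shift {u : ℝ → E} (hu : Adm u) (a : ℝ) (z w : E) (ξ : E) (t : ℝ) :
    traj a w (fun s => u s + ξ) t = traj a z u t + (w - z) + (t - a) • ξ := by
  unfold traj
  rw [integral_add (hu.ii a t) (by simp)]
  simp only [intervalIntegral.integral_const]
  abel

theorem act_shift {M : ℝ} {f : E → ℝ → ℝ} (hf : Good M f) (v : E) {a b : ℝ} (hab : a < b)
    (z w w' : E) {u : ℝ → E} (hu : Adm u) {δ : E} (hδ : δ = (w' - w) - (traj a z u b - z)) :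
    traj a w (fun s => u s + (1 / (b - a)) • δ) b = w' ∧
    act f v a b w (fun s => u s + (1 / (b - a)) • δ) ≤ act f v a b z u
      + inner ℝ ((1 / (b - a)) • (traj a z u b - z) - v) δ + ‖δ‖ ^ 2 / (2 * (b - a))
      + M * (b - a) * (‖w - z‖ + ‖w' - traj a z u b‖) := by
  have hba : 0 < b - a := by linarith
  set ξ : E := (1 / (b - a)) • δ with hξ
  have h1 : traj a w (fun s => u s + ξ) b = w' := by
    rw [traj_shift hu a z w ξ b, hξ, smul_smul, mul_one_div_cancel hba.ne', one_smul, hδ]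
    abel
  refine ⟨h1, ?_⟩
  have hu' : Adm (fun s => u s + ξ) := hu.add_const ξ
  rw [act_eq hf v a b w hu', act_eq hf v a b z hu]
  have e1 : (∫ t in a..b, ‖u t + ξ - v‖ ^ 2 / 2) = (∫ t in a..b, ‖u t - v‖ ^ 2 / 2)
      + inner ℝ ((1 / (b - a)) • (traj a z u b - z) - v) δ + ‖δ‖ ^ 2 / (2 * (b - a)) := by
    have e2 : ∀ t, ‖u t + ξ - v‖ ^ 2 / 2 = ‖u t - v‖ ^ 2 / 2 + inner ℝ ξ (u t - v) + ‖ξ‖ ^ 2 / 2 := by
      intro t
      have : u t + ξ - v = (u t - v) + ξ := by abel
      rw [this, norm_add_sq_real, real_inner_comm]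
      ring
    simp_rw [e2]
    rw [integral_add (((hu.sub_const v).sq_ii a b).add ((hu.sub_const v).inner_ii ξ a b)) (by simp),
      integral_add ((hu.sub_const v).sq_ii a b) ((hu.sub_const v).inner_ii ξ a b)]
    have e3 : (∫ t in a..b, inner ℝ ξ (u t - v)) = inner ℝ ξ (traj a z u b - z - (b - a) • v) := by
      have := (innerSL ℝ ξ).intervalIntegral_comp_comm ((hu.sub_const v).ii a b)
      rw [integral_sub (hu.ii a b) (by simp)] at this
      simpa [traj] using this
    rw [e3]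
    simp only [intervalIntegral.integral_const, smul_eq_mul]
    have e4 : ‖ξ‖ ^ 2 = ‖δ‖ ^ 2 / (b - a) ^ 2 := by
      rw [hξ, norm_smul, mul_pow, Real.norm_of_nonneg (by positivity)]
      field_simp
    have e5 : inner ℝ ξ (traj a z u b - z - (b - a) • v)
        = inner ℝ ((1 / (b - a)) • (traj a z u b - z) - v) δ := by
      have : (1 / (b - a)) • (traj a z u b - z) - v
          = (1 / (b - a)) • (traj a z u b - z - (b - a) • v) := by
        rw [smul_sub _ (traj a z u b - z), smul_smul (1 / (b - a)) (b - a), one_div_mul_cancel hba.ne',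
          one_smul]
      rw [this, hξ, real_inner_smul_left, real_inner_smul_left, real_inner_comm]
    rw [e4, e5]
    have : (b - a) * (‖δ‖ ^ 2 / (b - a) ^ 2 / 2) = ‖δ‖ ^ 2 / (2 * (b - a)) := by field_simp
    rw [this]
  have e6 : (∫ t in a..b, f (traj a w (fun s => u s + ξ) t) t) ≤ (∫ t in a..b, f (traj a z u t) t)
      + M * (b - a) * (‖w - z‖ + ‖w' - traj a z u b‖) := by
    have h2 : (∫ t in a..b, f (traj a w (fun s => u s + ξ) t) t)
        ≤ ∫ t in a..b, (f (traj a z u t) t + M * (‖w - z‖ + ‖w' - traj a z u b‖)) := by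
      apply integral_mono_on hab.le (f_traj_ii hf hu' a w a b)
        ((f_traj_ii hf hu a z a b).add (by simp))
      intro t ht
      have h3 := hf.lipx (traj a w (fun s => u s + ξ) t) (traj a z u t) t
      have h4 : traj a w (fun s => u s + ξ) t - traj a z u t
          = (1 - (t - a) / (b - a)) • (w - z) + ((t - a) / (b - a)) • (w' - traj a z u b) := by
        rw [traj_shift hu a z w ξ t, hξ, smul_smul, hδ, mul_one_div]
        module
      have h5 : ‖traj a w (fun s => u s + ξ) t - traj a z u t‖ ≤ ‖w - z‖ + ‖w' - traj a z u b‖ := by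
        rw [h4]
        refine (norm_add_le _ _).trans ?_
        rw [norm_smul, norm_smul]
        have h6 : 0 ≤ (t - a) / (b - a) := div_nonneg (by linarith [ht.1]) hba.le
        have h7 : (t - a) / (b - a) ≤ 1 := by rw [div_le_one hba]; linarith [ht.2]
        rw [Real.norm_of_nonneg (by linarith), Real.norm_of_nonneg h6]
        have := norm_nonneg (w - z)
        have := norm_nonneg (w' - traj a z u b)
        nlinarith
      have h8 := (abs_le.mp h3).2
      have := hf.pos
      nlinarith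
    rw [integral_add (f_traj_ii hf hu a z a b) (by simp)] at h2
    simp only [intervalIntegral.integral_const, smul_eq_mul] at h2
    linarith
  rw [e1]
  linarith

theorem ker_shift {M : ℝ} {f : E → ℝ → ℝ} (hf : Good M f) (v : E) {a b : ℝ} (hab : a < b)
    (z z' w w' : E) : ker f v a b w w' ≤ ker f v a b z z'
      + inner ℝ ((1 / (b - a)) • (z' - z) - v) ((w' - w) - (z' - z))
      + ‖(w' - w) - (z' - z)‖ ^ 2 / (2 * (b - a)) + M * (b - a) * (‖w - z‖ + ‖w' - z'‖) := by
  have : ker f v a b w w' - (inner ℝ ((1 / (b - a)) • (z' - z) - v) ((w' - w) - (z' - z))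
      + ‖(w' - w) - (z' - z)‖ ^ 2 / (2 * (b - a)) + M * (b - a) * (‖w - z‖ + ‖w' - z'‖))
      ≤ ker f v a b z z' := by
    apply le_ker hab
    rintro u hu rfl
    obtain ⟨h1, h2⟩ := act_shift hf v hab z w w' hu rfl
    have h3 := ker_le_act' hf v hab (hu.add_const _) h1
    linarith
  linarith

/-- continuity of the kernel -/
theorem ker_continuous {M : ℝ} {f : E → ℝ → ℝ} (hf : Good M f) (v : E) {a b : ℝ} (hab : a < b) :
    Continuous (fun p : E × E => ker f v a b p.1 p.2) := by
  rw [continuous_iff_continuousAt]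
  rintro ⟨z, z'⟩
  have hU : Tendsto (fun p : E × E => ker f v a b z z'
      + inner ℝ ((1 / (b - a)) • (z' - z) - v) ((p.2 - p.1) - (z' - z))
      + ‖(p.2 - p.1) - (z' - z)‖ ^ 2 / (2 * (b - a)) + M * (b - a) * (‖p.1 - z‖ + ‖p.2 - z'‖))
      (𝓝 (z, z')) (𝓝 (ker f v a b z z')) := by
    have hc : Continuous (fun p : E × E => ker f v a b z z'
      + inner ℝ ((1 / (b - a)) • (z' - z) - v) ((p.2 - p.1) - (z' - z))
      + ‖(p.2 - p.1) - (z' - z)‖ ^ 2 / (2 * (b - a)) + M * (b - a) * (‖p.1 - z‖ + ‖p.2 - z'‖)) := by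
      fun_prop
    have := hc.tendsto (z, z')
    simpa using this
  have hL : Tendsto (fun p : E × E => ker f v a b z z'
      - (inner ℝ ((1 / (b - a)) • (p.2 - p.1) - v) ((z' - z) - (p.2 - p.1))
      + ‖(z' - z) - (p.2 - p.1)‖ ^ 2 / (2 * (b - a)) + M * (b - a) * (‖z - p.1‖ + ‖z' - p.2‖)))
      (𝓝 (z, z')) (𝓝 (ker f v a b z z')) := by
    have hc : Continuous (fun p : E × E => ker f v a b z z'
      - (inner ℝ ((1 / (b - a)) • (p.2 - p.1) - v) ((z' - z) - (p.2 - p.1))
      + ‖(z' - z) - (p.2 - p.1)‖ ^ 2 / (2 * (b - a)) + M * (b - a) * (‖z - p.1‖ + ‖z' - p.2‖))) := by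
      fun_prop
    have := hc.tendsto (z, z')
    simpa using this
  refine tendsto_of_tendsto_of_tendsto_of_le_of_le hL hU (fun p => ?_) (fun p => ?_)
  · have := ker_shift hf v hab p.1 p.2 z z'
    simp only
    linarith
  · exact ker_shift hf v hab z z' p.1 p.2

theorem ker_translate {f : E → ℝ → ℝ} (γ : E) (h : ∀ x t, f (x + γ) t = f x t) (v : E) (a b : ℝ) (z z' : E) :
    ker f v a b (z + γ) (z' + γ) = ker f v a b z z' := by
  unfold ker
  congr 1
  ext c
  have e1 : ∀ (u : ℝ → E) t, traj a (z + γ) u t = traj a z u t + γ := by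
    intro u t; unfold traj; abel
  have e2 : ∀ u : ℝ → E, act f v a b (z + γ) u = act f v a b z u := by
    intro u; unfold act; simp_rw [e1, h]
  constructor
  · rintro ⟨u, hu, h1, h2⟩
    refine ⟨u, hu, ?_, by rw [h2, e2]⟩
    rw [e1] at h1
    exact add_right_cancel h1
  · rintro ⟨u, hu, h1, h2⟩
    exact ⟨u, hu, by rw [e1, h1], by rw [h2, e2]⟩

theorem Adm.comp_add {u : ℝ → E} (hu : Adm u) (c : ℝ) : Adm (fun t => u (t + c)) := by
  obtain ⟨hm, C, hC⟩ := hu
  exact ⟨hm.comp_measurable (measurable_id.add_const c), C, fun t => hC _⟩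

theorem traj_comp_add {u : ℝ → E} (a c : ℝ) (z : E) (t : ℝ) :
    traj a z (fun s => u (s + c)) t = traj (a + c) z u (t + c) := by
  unfold traj
  rw [intervalIntegral.integral_comp_add_right (fun s => u s) c]

theorem act_comp_add {f : E → ℝ → ℝ} {c : ℝ} (h : ∀ x t, f x (t + c) = f x t) (v : E) (a b : ℝ)
    (z : E) (u : ℝ → E) : act f v a b z (fun s => u (s + c)) = act f v (a + c) (b + c) z u := by
  unfold act
  rw [← intervalIntegral.integral_comp_add_right
    (fun t => ‖u t - v‖ ^ 2 / 2 + f (traj (a + c) z u t) t) c]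
  simp_rw [traj_comp_add, h]

theorem ker_time {f : E → ℝ → ℝ} (h : ∀ x t, f x (t + 1) = f x t) (v : E) (a b : ℝ) (z z' : E) :
    ker f v (a + 1) (b + 1) z z' = ker f v a b z z' := by
  unfold ker
  congr 1
  ext c
  constructor
  · rintro ⟨u, hu, h1, h2⟩
    exact ⟨fun s => u (s + 1), hu.comp_add 1, by rw [traj_comp_add, h1], by rw [h2, act_comp_add h]⟩
  · rintro ⟨u, hu, h1, h2⟩
    have hu' : (fun s => (fun r => u (r + -1)) (s + 1)) = u := by ext s; simp
    refine ⟨fun s => u (s + -1), hu.comp_add (-1), ?_, ?_⟩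
    · rw [← traj_comp_add (u := fun r => u (r + -1)) a 1 z b, hu', h1]
    · rw [← act_comp_add h, hu', h2]

/-! ### concatenation -/

/-- concatenation of controls at time `b` -/
def cat (b : ℝ) (u₁ u₂ : ℝ → E) : ℝ → E := fun t => if t ≤ b then u₁ t else u₂ t

theorem Adm.cat {u₁ u₂ : ℝ → E} (h₁ : Adm u₁) (h₂ : Adm u₂) (b : ℝ) : Adm (Esc.cat b u₁ u₂) := by
  obtain ⟨m₁, C₁, hC₁⟩ := h₁
  obtain ⟨m₂, C₂, hC₂⟩ := h₂
  refine ⟨StronglyMeasurable.ite measurableSet_Iic m₁ m₂, max C₁ C₂, fun t => ?_⟩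
  unfold Esc.cat
  split_ifs
  · exact (hC₁ t).trans (le_max_left _ _)
  · exact (hC₂ t).trans (le_max_right _ _)

theorem traj_cat_left {u₁ u₂ : ℝ → E} {a b : ℝ} {z : E} {t : ℝ} (hab : a ≤ b) (ht : t ≤ b) :
    traj a z (cat b u₁ u₂) t = traj a z u₁ t := by
  unfold traj
  congr 1
  apply intervalIntegral.integral_congr
  intro s hs
  have : s ≤ b := hs.2.trans (max_le hab ht)
  simp [cat, this]

theorem traj_split {u : ℝ → E} (hu : Adm u) (a b : ℝ) (z : E) (t : ℝ) :
    traj a z u t = traj b (traj a z u b) u t := by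
  unfold traj
  rw [add_assoc, integral_add_adjacent_intervals (hu.ii a b) (hu.ii b t)]

theorem traj_congr_right {u₁ u₂ : ℝ → E} {b : ℝ} (z : E) {t : ℝ} (ht : b ≤ t) :
    traj b z (cat b u₁ u₂) t = traj b z u₂ t := by
  unfold traj
  congr 1
  apply intervalIntegral.integral_congr_ae
  refine ae_of_all _ fun s hs => ?_
  rw [uIoc_of_le ht] at hs
  simp [cat, not_le.mpr hs.1]

theorem traj_cat_right {u₁ u₂ : ℝ → E} (h₁ : Adm u₁) (h₂ : Adm u₂) {a b : ℝ} {z : E} {t : ℝ}
    (hab : a ≤ b) (ht : b ≤ t) :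
    traj a z (cat b u₁ u₂) t = traj b (traj a z u₁ b) u₂ t := by
  rw [traj_split (h₁.cat h₂ b) a b, traj_cat_left hab le_rfl, traj_congr_right _ ht]

theorem act_ii {M : ℝ} {f : E → ℝ → ℝ} (hf : Good M f) (v : E) (a : ℝ) (z : E) {u : ℝ → E}
    (hu : Adm u) (c d : ℝ) :
    IntervalIntegrable (fun t => ‖u t - v‖ ^ 2 / 2 + f (traj a z u t) t) volume c d :=
  ((hu.sub_const v).sq_ii c d).add (f_traj_ii hf hu a z c d)

theorem act_split {M : ℝ} {f : E → ℝ → ℝ} (hf : Good M f) (v : E) (a b c : ℝ) (z : E) {u : ℝ → E}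
    (hu : Adm u) : act f v a c z u = act f v a b z u + act f v b c (traj a z u b) u := by
  have : act f v b c (traj a z u b) u = ∫ t in b..c, (‖u t - v‖ ^ 2 / 2 + f (traj a z u t) t) := by
    unfold act
    congr 1
    ext t
    rw [traj_split hu a b z t]
  rw [this]
  unfold act
  rw [integral_add_adjacent_intervals (act_ii hf v a z hu _ _) (act_ii hf v a z hu _ _)]

theorem act_cat {M : ℝ} {f : E → ℝ → ℝ} (hf : Good M f) (v : E) {a b c : ℝ} (hab : a ≤ b)
    (hbc : b ≤ c) (z : E) {u₁ u₂ : ℝ → E} (h₁ : Adm u₁) (h₂ : Adm u₂) :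
    act f v a c z (cat b u₁ u₂) = act f v a b z u₁ + act f v b c (traj a z u₁ b) u₂ := by
  rw [act_split hf v a b c z (h₁.cat h₂ b), traj_cat_left hab le_rfl]
  congr 1
  · unfold act
    apply intervalIntegral.integral_congr
    intro t ht
    rw [uIcc_of_le hab] at ht
    simp only
    rw [traj_cat_left hab ht.2]
    simp [cat, ht.2]
  · unfold act
    apply intervalIntegral.integral_congr_ae
    refine ae_of_all _ fun t ht => ?_
    rw [uIoc_of_le hbc] at ht
    rw [traj_congr_right _ ht.1.le]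
    simp [cat, not_le.mpr ht.1]

/-- semigroup property, easy half -/
theorem ker_le_ker_add {M : ℝ} {f : E → ℝ → ℝ} (hf : Good M f) (v : E) {a b c : ℝ} (hab : a < b)
    (hbc : b < c) (z w z' : E) : ker f v a c z z' ≤ ker f v a b z w + ker f v b c w z' := by
  apply le_of_forall_pos_le_add
  intro ε hε
  obtain ⟨u₁, h₁, e₁, l₁⟩ := exists_act_lt hf v hab z w (half_pos hε)
  obtain ⟨u₂, h₂, e₂, l₂⟩ := exists_act_lt hf v hbc w z' (half_pos hε)
  have h3 := ker_le_act' hf v (hab.trans hbc) (z := z) (z' := z') (h₁.cat h₂ b)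
    (by rw [traj_cat_right h₁ h₂ hab.le hbc.le, e₁, e₂])
  rw [act_cat hf v hab.le hbc.le z h₁ h₂, e₁] at h3
  linarith

/-- semigroup property, approximate intermediate point -/
theorem exists_ker_add_lt {M : ℝ} {f : E → ℝ → ℝ} (hf : Good M f) (v : E) {a b c : ℝ} (hab : a < b)
    (hbc : b < c) (z z' : E) {ε : ℝ} (hε : 0 < ε) :
    ∃ w, ker f v a b z w + ker f v b c w z' < ker f v a c z z' + ε := by
  obtain ⟨u, hu, e, l⟩ := exists_act_lt hf v (hab.trans hbc) z z' hε
  refine ⟨traj a z u b, ?_⟩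
  have h1 := ker_le_act hf v hab z hu
  have h2 := ker_le_act' hf v hbc (z := traj a z u b) (z' := z') hu
    (by rw [← traj_split hu a b z c, e])
  rw [act_split hf v a b c z hu] at l
  linarith

/-- semigroup property with attained intermediate point -/
theorem exists_ker_add_eq [FiniteDimensional ℝ E] {M : ℝ} {f : E → ℝ → ℝ} (hf : Good M f) (v : E)
    {a b c : ℝ} (hab : a < b) (hbc : b < c) (z z' : E) :
    ∃ w, ker f v a b z w + ker f v b c w z' = ker f v a c z z' := by
  -- the function of `w` is continuous and coercive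
  set F : E → ℝ := fun w => ker f v a b z w + ker f v b c w z' with hF
  have hFc : Continuous F := by
    have h1 := ker_continuous hf v hab
    have h2 := ker_continuous hf v hbc
    exact (h1.comp (continuous_const.prodMk continuous_id)).add
      (h2.comp (continuous_id.prodMk continuous_const))
  have hba : 0 < b - a := by linarith
  have hcb : 0 < c - b := by linarith
  -- coercivity
  have hco : ∀ w, F w ≤ ker f v a c z z' + 1 →
      ‖w - z - (b - a) • v‖ ^ 2 ≤ 2 * (b - a) * (ker f v a c z z' + 1 + M * (c - a)) := by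
    intro w hw
    have h1 := ker_lower hf v hab z w
    have h2 := ker_lower hf v hbc w z'
    have h3 : 0 ≤ ‖z' - w - (c - b) • v‖ ^ 2 / (2 * (c - b)) := by positivity
    have h4 : ‖w - z - (b - a) • v‖ ^ 2 / (2 * (b - a)) ≤ ker f v a c z z' + 1 + M * (c - a) := by
      have : F w = ker f v a b z w + ker f v b c w z' := rfl
      nlinarith
    rw [div_le_iff₀ (by positivity)] at h4
    linarith
  set R := Real.sqrt (2 * (b - a) * (ker f v a c z z' + 1 + M * (c - a))) with hR
  set K : Set E := Metric.closedBall (z + (b - a) • v) R with hK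
  have hKc : IsCompact K := isCompact_closedBall _ _
  have hmem : ∀ w, F w ≤ ker f v a c z z' + 1 → w ∈ K := by
    intro w hw
    rw [hK, Metric.mem_closedBall, dist_eq_norm]
    have h1 := hco w hw
    have h2 : ‖w - (z + (b - a) • v)‖ = Real.sqrt (‖w - z - (b - a) • v‖ ^ 2) := by
      rw [Real.sqrt_sq (norm_nonneg _)]; congr 1; abel
    rw [h2]
    exact Real.sqrt_le_sqrt h1
  obtain ⟨w₀, hw₀⟩ := exists_ker_add_lt hf v hab hbc z z' one_pos
  obtain ⟨w, hwK, hw⟩ := hKc.exists_isMinOn ⟨w₀, hmem w₀ hw₀.le⟩ hFc.continuousOn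
  refine ⟨w, le_antisymm ?_ (ker_le_ker_add hf v hab hbc z w z')⟩
  apply le_of_forall_pos_le_add
  intro ε hε
  obtain ⟨w₁, hw₁⟩ := exists_ker_add_lt hf v hab hbc z z' (lt_min hε one_pos)
  have h1 : w₁ ∈ K := hmem w₁ (hw₁.le.trans (by linarith [min_le_right ε 1]))
  have h2 := hw h1
  simp only [mem_ofPred_eq] at h2
  have h3 : F w ≤ F w₁ := h2
  have : F w₁ < ker f v a c z z' + ε := hw₁.trans_le (by linarith [min_le_left ε 1])
  exact (h3.trans_lt this).le

end ModuleK

end Esc
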