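import Pool.Agent.helper42.Esc.K

/-!
Module K2 of the escape theorem (MP_6acca1_an): the periodic kernel.
-/

set_option linter.unusedSectionVars false

noncomputable section

namespace Esc

open MeasureTheory Set Filter Topology intervalIntegral
open scoped ContDiff

section ModuleK2

variable {d : ℕ} {E : Type*} [NormedAddCommGroup E] [InnerProductSpace ℝ E] [FiniteDimensional ℝ E]
  (L : Lat d E)

namespace Lat

/-! ### algebra of the slow coordinate -/

theorem y_add (x x' : E) : L.y (x + x') = L.y x + L.y x' := inner_add_right _ _ _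
theorem y_sub (x x' : E) : L.y (x - x') = L.y x - L.y x' := inner_sub_right _ _ _
theorem y_neg (x : E) : L.y (-x) = -L.y x := inner_neg_right _ _
theorem y_zero : L.y 0 = 0 := inner_zero_right _
theorem y_smul (c : ℝ) (x : E) : L.y (c • x) = c * L.y x := real_inner_smul_right _ _ _
theorem y_e : L.y L.e = 1 := by
  show inner ℝ L.e L.e = 1
  rw [real_inner_self_eq_norm_sq, L.norm_e]; norm_num
theorem y_g : L.y L.g = 1 := L.eg
theorem y_b (i : Fin d) : L.y (L.b i) = 0 := L.eb i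
theorem y_sum {ι : Type*} (s : Finset ι) (h : ι → E) : L.y (∑ i ∈ s, h i) = ∑ i ∈ s, L.y (h i) :=
  inner_sum _ _ _
theorem y_comb (θ : Fin d → ℝ) : L.y (∑ i, θ i • L.b i) = 0 := by
  rw [L.y_sum]; simp [L.y_smul, L.y_b]
theorem y_lv (n : Fin d → ℤ) : L.y (L.lv n) = 0 := L.y_comb _
theorem y_vel (s : ℝ) : L.y (L.vel s) = 0 := L.y_comb _
theorem y_cont : Continuous L.y := continuous_const.inner continuous_id
theorem abs_y_le (x : E) : |L.y x| ≤ ‖x‖ := by
  have := abs_real_inner_le_norm L.e x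
  rwa [L.norm_e, one_mul] at this

theorem P_add (x x' : E) : L.P (x + x') = L.P x + L.P x' := by
  unfold P; rw [L.y_add, add_smul]; abel
theorem P_sub (x x' : E) : L.P (x - x') = L.P x - L.P x' := by
  unfold P; rw [L.y_sub, sub_smul]; abel
theorem P_smul (c : ℝ) (x : E) : L.P (c • x) = c • L.P x := by
  unfold P; rw [L.y_smul, smul_sub, smul_smul]
theorem P_of_y {x : E} (h : L.y x = 0) : L.P x = x := by unfold P; rw [h]; simp
theorem P_e : L.P L.e = 0 := by unfold P; rw [L.y_e]; simp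
theorem y_P (x : E) : L.y (L.P x) = 0 := by
  unfold P; rw [L.y_sub, L.y_smul, L.y_e]; ring
theorem P_lv (n : Fin d → ℤ) : L.P (L.lv n) = L.lv n := L.P_of_y (L.y_lv n)
theorem P_vel (s : ℝ) : L.P (L.vel s) = L.vel s := L.P_of_y (L.y_vel s)
theorem P_add_y (x : E) : L.P x + L.y x • L.e = x := by unfold P; abel

theorem norm_sq_eq (x : E) : ‖x‖ ^ 2 = ‖L.P x‖ ^ 2 + (L.y x) ^ 2 := by
  conv_lhs => rw [← L.P_add_y x]
  rw [norm_add_sq_real, real_inner_smul_right]
  have h : inner ℝ (L.P x) L.e = 0 := by rw [real_inner_comm]; exact L.y_P x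
  rw [h, norm_smul, L.norm_e]
  simp

theorem lv_add (n m : Fin d → ℤ) : L.lv (n + m) = L.lv n + L.lv m := by
  unfold lv; rw [← Finset.sum_add_distrib]
  congr 1; ext i; simp [add_smul]
theorem lv_neg (n : Fin d → ℤ) : L.lv (-n) = - L.lv n := by
  unfold lv; rw [← Finset.sum_neg_distrib]
  congr 1; ext i; simp
theorem lv_sub (n m : Fin d → ℤ) : L.lv (n - m) = L.lv n - L.lv m := by
  rw [sub_eq_add_neg, L.lv_add, L.lv_neg, ← sub_eq_add_neg]
theorem lv_zero : L.lv 0 = 0 := by unfold lv; simp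

/-- every vector of height zero is a combination of the `b i` -/
theorem exists_comb {x : E} (h : L.y x = 0) : ∃ c : Fin d → ℝ, x = ∑ i, c i • L.b i := by
  have := L.span x h
  rw [Submodule.mem_span_range_iff_exists_fun] at this
  obtain ⟨c, hc⟩ := this
  exact ⟨c, hc.symm⟩

/-- reduction modulo the lattice -/
theorem exists_red {x : E} (h : L.y x = 0) : ∃ n : Fin d → ℤ, ∃ θ : Fin d → ℝ,
    (∀ i, 0 ≤ θ i ∧ θ i ≤ 1) ∧ x + L.lv n = ∑ i, θ i • L.b i := by
  obtain ⟨c, hc⟩ := L.exists_comb h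
  refine ⟨fun i => - ⌊c i⌋, fun i => Int.fract (c i), fun i => ⟨Int.fract_nonneg _, (Int.fract_lt_one _).le⟩, ?_⟩
  rw [hc]
  unfold lv
  rw [← Finset.sum_add_distrib]
  congr 1; ext i
  rw [← add_smul]
  congr 1
  push_cast
  rw [Int.fract]; ring

/-- size of the fundamental cell -/
def Cb : ℝ := ∑ i, ‖L.b i‖

theorem Cb_nonneg : 0 ≤ L.Cb := Finset.sum_nonneg fun _ _ => norm_nonneg _

theorem comb_le {θ : Fin d → ℝ} (h : ∀ i, 0 ≤ θ i ∧ θ i ≤ 1) : ‖∑ i, θ i • L.b i‖ ≤ L.Cb := by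
  refine (norm_sum_le _ _).trans (Finset.sum_le_sum fun i _ => ?_)
  rw [norm_smul, Real.norm_of_nonneg (h i).1]
  have := norm_nonneg (L.b i)
  nlinarith [(h i).2]

/-- a good lattice vector: the displacement differs from the velocity by a bounded amount -/
theorem exists_good_lv (s : ℝ) (z z' : E) (h : |L.y z - L.y z'| ≤ 2) :
    ∃ n : Fin d → ℤ, ‖z' + L.lv n - z - L.vel s‖ ≤ L.Cb + 2 := by
  obtain ⟨n, θ, hθ, e⟩ := L.exists_red (x := L.P (z' - z) - L.vel s)
    (by rw [L.y_sub, L.y_P, L.y_vel]; ring)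
  refine ⟨n, ?_⟩
  have e2 : z' + L.lv n - z - L.vel s = (L.P (z' - z) - L.vel s + L.lv n) + L.y (z' - z) • L.e := by
    have := L.P_add_y (z' - z)
    calc z' + L.lv n - z - L.vel s = (z' - z) + L.lv n - L.vel s := by abel
      _ = (L.P (z' - z) + L.y (z' - z) • L.e) + L.lv n - L.vel s := by rw [this]
      _ = _ := by abel
  rw [e2, e]
  refine (norm_add_le _ _).trans ?_
  gcongr
  · exact L.comb_le hθ
  · rw [norm_smul, L.norm_e, mul_one, Real.norm_eq_abs, L.y_sub, abs_sub_comm]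
    exact h

/-- finiteness of lattice points in balls -/
theorem lv_finite (x : E) (R : ℝ) : {n : Fin d → ℤ | ‖x + L.lv n‖ ≤ R}.Finite := by
  set T : (Fin d → ℝ) →ₗ[ℝ] E := Fintype.linearCombination ℝ L.b with hT
  have hTk : LinearMap.ker T = ⊥ := by
    have := L.li
    rw [LinearMap.ker_eq_bot]
    exact linearIndependent_iff_injective_fintypeLinearCombination.mp this
  obtain ⟨K, -, hK⟩ := T.exists_antilipschitzWith hTk
  have hlv : ∀ n : Fin d → ℤ, T (fun i => (n i : ℝ)) = L.lv n := by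
    intro n; rw [hT, Fintype.linearCombination_apply]; rfl
  set B : ℝ := K * (R + ‖x‖) with hB
  apply (Set.finite_Icc (fun _ : Fin d => - ⌈B⌉) (fun _ : Fin d => ⌈B⌉)).subset
  intro n hn
  have hn' : ‖x + L.lv n‖ ≤ R := hn
  have h1 := hK.le_mul_dist (fun i => (n i : ℝ)) 0
  rw [map_zero, dist_zero_right, dist_zero_right, hlv] at h1
  have h2 : ‖L.lv n‖ ≤ R + ‖x‖ := by
    have : L.lv n = (x + L.lv n) - x := by abel
    rw [this]; exact (norm_sub_le _ _).trans (by linarith)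
  have h3 : ∀ i, |(n i : ℝ)| ≤ B := by
    intro i
    have := norm_le_pi_norm (fun i => (n i : ℝ)) i
    rw [Real.norm_eq_abs] at this
    refine this.trans (h1.trans ?_)
    rw [hB]; gcongr
  constructor
  · intro i
    have := (abs_le.mp (h3 i)).1
    have h4 := Int.le_ceil B
    have : (-(⌈B⌉ : ℝ)) ≤ n i := by linarith
    exact_mod_cast this
  · intro i
    have := (abs_le.mp (h3 i)).2
    have h4 := Int.le_ceil B
    have : (n i : ℝ) ≤ ⌈B⌉ := by linarith
    exact_mod_cast this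

end Lat

/-! ### the periodic kernel -/

theorem ker_ge_neg {M : ℝ} {f : E → ℝ → ℝ} (hf : Good M f) (v z z' : E) : -M ≤ ker f v 0 1 z z' := by
  have := ker_lower hf v one_pos z z'
  have h2 : 0 ≤ ‖z' - z - ((1:ℝ) - 0) • v‖ ^ 2 / (2 * (1 - 0)) := by positivity
  linarith

theorem kbar_bdd {M : ℝ} {f : E → ℝ → ℝ} (hf : Good M f) (s : ℝ) (z z' : E) :
    BddBelow (range fun n : Fin d → ℤ => ker f (L.vel s) 0 1 z (z' + L.lv n)) := by
  refine ⟨-M, ?_⟩
  rintro _ ⟨n, rfl⟩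
  exact ker_ge_neg hf _ _ _

theorem kbar_le_ker {M : ℝ} {f : E → ℝ → ℝ} (hf : Good M f) (s : ℝ) (z z' : E) (n : Fin d → ℤ) :
    L.kbar f s z z' ≤ ker f (L.vel s) 0 1 z (z' + L.lv n) :=
  ciInf_le (kbar_bdd L hf s z z') n

/-- the infimum over the lattice is attained -/
theorem kbar_attained {M : ℝ} {f : E → ℝ → ℝ} (hf : Good M f) (s : ℝ) (z z' : E) :
    ∃ n : Fin d → ℤ, L.kbar f s z z' = ker f (L.vel s) 0 1 z (z' + L.lv n) := by
  set F : (Fin d → ℤ) → ℝ := fun n => ker f (L.vel s) 0 1 z (z' + L.lv n) with hF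
  have hfin : {n | F n ≤ F 0}.Finite := by
    apply (L.lv_finite (z' - z - L.vel s) (Real.sqrt (2 * (F 0 + M)))).subset
    intro n hn
    have hn' : F n ≤ F 0 := hn
    show ‖z' - z - L.vel s + L.lv n‖ ≤ _
    have h1 := ker_lower hf (L.vel s) one_pos z (z' + L.lv n)
    have e : z' + L.lv n - z - ((1:ℝ) - 0) • L.vel s = z' - z - L.vel s + L.lv n := by
      rw [sub_zero, one_smul]; abel
    rw [e] at h1
    apply Real.le_sqrt_of_sq_le
    have : ker f (L.vel s) 0 1 z (z' + L.lv n) = F n := rfl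
    linarith
  obtain ⟨n, hn, hmin⟩ := Set.exists_min_image _ F hfin ⟨0, le_refl (F 0)⟩
  refine ⟨n, le_antisymm (kbar_le_ker L hf s z z' n) ?_⟩
  apply le_ciInf
  intro m
  by_cases hm : F m ≤ F 0
  · exact hmin m hm
  · have h1 : F n ≤ F 0 := hn
    exact h1.trans (not_le.mp hm).le

theorem kbar_ge {M : ℝ} {f : E → ℝ → ℝ} (hf : Good M f) (s : ℝ) (z z' : E) : -M ≤ L.kbar f s z z' :=
  le_ciInf fun _ => ker_ge_neg hf _ _ _

theorem kbar_le_of {M : ℝ} {f : E → ℝ → ℝ} (hf : Good M f) (s : ℝ) {z z' : E}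
    (h : |L.y z - L.y z'| ≤ 2) : L.kbar f s z z' ≤ (L.Cb + 2) ^ 2 / 2 + M := by
  obtain ⟨n, hn⟩ := L.exists_good_lv s z z' h
  refine (kbar_le_ker L hf s z z' n).trans ((ker_upper hf _ one_pos _ _).trans ?_)
  have e : z' + L.lv n - z - ((1:ℝ) - 0) • L.vel s = z' + L.lv n - z - L.vel s := by
    rw [sub_zero, one_smul]
  rw [e]
  have := norm_nonneg (z' + L.lv n - z - L.vel s)
  have h2 : ‖z' + L.lv n - z - L.vel s‖ ^ 2 ≤ (L.Cb + 2) ^ 2 := by gcongr
  norm_num
  linarith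

theorem kbar_sub_le {M ρ : ℝ} {f f' : E → ℝ → ℝ} (hf : Good M f) (hf' : Good M f')
    (h : ∀ x t, |f x t - f' x t| ≤ ρ) (s : ℝ) (z z' : E) :
    |L.kbar f s z z' - L.kbar f' s z z'| ≤ ρ := by
  have key : ∀ {g g' : E → ℝ → ℝ}, Good M g → Good M g' → (∀ x t, |g x t - g' x t| ≤ ρ) →
      L.kbar g s z z' ≤ L.kbar g' s z z' + ρ := by
    intro g g' hg hg' h
    obtain ⟨n, hn⟩ := kbar_attained L hg' s z z'
    rw [hn]
    have h1 := kbar_le_ker L hg s z z' n
    have h2 := (abs_le.mp (ker_sub_le hg hg' h (L.vel s) one_pos z (z' + L.lv n))).2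
    linarith
  have h1 := key hf hf' h
  have h2 := key hf' hf (fun x t => by rw [abs_sub_comm]; exact h x t)
  rw [abs_le]; constructor <;> linarith

theorem kbar_mono {M : ℝ} {f f' : E → ℝ → ℝ} (hf : Good M f) (hf' : Good M f')
    (h : ∀ x t, f x t ≤ f' x t) (s : ℝ) (z z' : E) : L.kbar f s z z' ≤ L.kbar f' s z z' := by
  obtain ⟨n, hn⟩ := kbar_attained L hf' s z z'
  rw [hn]
  exact (kbar_le_ker L hf s z z' n).trans (ker_mono hf hf' h _ one_pos _ _)

theorem good_avg {M : ℝ} {ι : Type*} (I : Finset ι) (hI : I.Nonempty) {f : ι → E → ℝ → ℝ}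
    (hf : ∀ i ∈ I, Good M (f i)) : Good M (fun x t => (∑ i ∈ I, f i x t) / I.card) := by
  have hc : (0:ℝ) < I.card := by exact_mod_cast hI.card_pos
  obtain ⟨i0, hi0⟩ := hI
  refine ⟨(hf i0 hi0).pos, ?_, ?_, ?_, ?_⟩
  · exact (continuous_finsetSum _ fun i hi => (hf i hi).cont).div_const _
  · intro x t
    rw [abs_div, Nat.abs_cast, div_le_iff₀ hc]
    refine (Finset.abs_sum_le_sum_abs _ _).trans ?_
    calc _ ≤ ∑ i ∈ I, M := Finset.sum_le_sum fun i hi => (hf i hi).bd x t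
      _ = _ := by rw [Finset.sum_const, nsmul_eq_mul]; ring
  · intro x x' t
    rw [← sub_div, ← Finset.sum_sub_distrib, abs_div, Nat.abs_cast, div_le_iff₀ hc]
    refine (Finset.abs_sum_le_sum_abs _ _).trans ?_
    calc _ ≤ ∑ i ∈ I, M * ‖x - x'‖ := Finset.sum_le_sum fun i hi => (hf i hi).lipx x x' t
      _ = _ := by rw [Finset.sum_const, nsmul_eq_mul]; ring
  · intro x t t'
    rw [← sub_div, ← Finset.sum_sub_distrib, abs_div, Nat.abs_cast, div_le_iff₀ hc]
    refine (Finset.abs_sum_le_sum_abs _ _).trans ?_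
    calc _ ≤ ∑ i ∈ I, M * |t - t'| := Finset.sum_le_sum fun i hi => (hf i hi).lipt x t t'
      _ = _ := by rw [Finset.sum_const, nsmul_eq_mul]; ring

/-- concavity in the potential (finite averages) -/
theorem kbar_concave {M : ℝ} {ι : Type*} (I : Finset ι) (hI : I.Nonempty) {f : ι → E → ℝ → ℝ}
    (hf : ∀ i ∈ I, Good M (f i)) (s : ℝ) (z z' : E) :
    (∑ i ∈ I, L.kbar (f i) s z z') / I.card ≤
      L.kbar (fun x t => (∑ i ∈ I, f i x t) / I.card) s z z' := by
  have hc : (0:ℝ) < I.card := by exact_mod_cast hI.card_pos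
  have hg := good_avg I hI hf
  obtain ⟨n, hn⟩ := kbar_attained L hg s z z'
  rw [hn]
  apply le_ker one_pos
  intro u hu hz
  rw [div_le_iff₀ hc]
  have h1 : ∀ i ∈ I, L.kbar (f i) s z z' ≤ act (f i) (L.vel s) 0 1 z u := fun i hi =>
    (kbar_le_ker L (hf i hi) s z z' n).trans (ker_le_act' (hf i hi) _ one_pos hu hz)
  refine (Finset.sum_le_sum h1).trans (le_of_eq ?_)
  rw [act_eq hg _ _ _ _ hu]
  have h2 : ∀ i ∈ I, act (f i) (L.vel s) 0 1 z u
      = (∫ t in (0:ℝ)..1, ‖u t - L.vel s‖ ^ 2 / 2) + ∫ t in (0:ℝ)..1, f i (traj 0 z u t) t :=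
    fun i hi => act_eq (hf i hi) _ _ _ _ hu
  have h3 : (∫ t in (0:ℝ)..1, (∑ i ∈ I, f i (traj 0 z u t) t) / (I.card : ℝ))
      = (∑ i ∈ I, ∫ t in (0:ℝ)..1, f i (traj 0 z u t) t) / I.card := by
    rw [intervalIntegral.integral_div, intervalIntegral.integral_finsetSum
      (fun i hi => f_traj_ii (hf i hi) hu 0 z 0 1)]
  rw [Finset.sum_congr rfl h2, Finset.sum_add_distrib, Finset.sum_const, nsmul_eq_mul, h3]
  field_simp

theorem per_lv {f : E → ℝ → ℝ} (h : ∀ i x t, f (x + L.b i) t = f x t) (n : Fin d → ℤ) (x : E) (t : ℝ) :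
    f (x + L.lv n) t = f x t := by
  -- the set of periods is a subgroup
  let H : AddSubgroup E :=
    { carrier := {γ | ∀ x t, f (x + γ) t = f x t}
      zero_mem' := by intro x t; rw [add_zero]
      add_mem' := by
        intro a b ha hb x t
        rw [← add_assoc, hb, ha]
      neg_mem' := by
        intro a ha x t
        have := ha (x + -a) t
        rw [← this]; congr 1; abel }
  have hmem : L.lv n ∈ H := by
    unfold Lat.lv
    apply AddSubgroup.sum_mem
    intro i _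
    have : ((n i : ℤ) : ℝ) • L.b i = n i • L.b i := by rw [Int.cast_smul_eq_zsmul]
    rw [this]
    have hb : L.b i ∈ H := fun x t => h i x t
    exact H.zsmul_mem hb _
  exact hmem x t

theorem kbar_per {f : E → ℝ → ℝ} (h : ∀ i x t, f (x + L.b i) t = f x t) (s : ℝ) (z z' : E)
    (n m : Fin d → ℤ) : L.kbar f s (z + L.lv n) (z' + L.lv m) = L.kbar f s z z' := by
  unfold Lat.kbar
  have h1 : ∀ k : Fin d → ℤ, ker f (L.vel s) 0 1 (z + L.lv n) (z' + L.lv m + L.lv k)
      = ker f (L.vel s) 0 1 z (z' + L.lv (m + k - n)) := by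
    intro k
    have : z' + L.lv m + L.lv k = z' + L.lv (m + k - n) + L.lv n := by
      rw [L.lv_sub, L.lv_add]; abel
    rw [this, ker_translate (L.lv n) (fun x t => per_lv L h n x t)]
  simp_rw [h1]
  exact (Equiv.subRight n |>.trans (Equiv.addLeft m)).iInf_congr fun k => by
    simp only [Equiv.trans_apply, Equiv.subRight_apply, Equiv.coe_addLeft, add_sub_assoc]

theorem kbar_perg {f : E → ℝ → ℝ} (h : ∀ x t, f (x + L.g) t = f x t) (s : ℝ) (z z' : E) :
    L.kbar f s (z + L.g) (z' + L.g) = L.kbar f s z z' := by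
  unfold Lat.kbar
  congr 1
  ext k
  rw [add_right_comm, ker_translate L.g h]

/-! ### uniform bounds -/

theorem disp_bd {M B : ℝ} {f : E → ℝ → ℝ} (hf : Good M f) (v z z' : E) (h : ker f v 0 1 z z' ≤ B) :
    ‖z' - z - v‖ ≤ Real.sqrt (2 * (B + M)) := by
  have h1 := ker_lower hf v one_pos z z'
  rw [sub_zero, one_smul] at h1
  apply Real.le_sqrt_of_sq_le
  linarith

/-- uniform bound and Lipschitz constant -/
theorem kbar_bd_lip (M : ℝ) : ∃ B Λ : ℝ, 0 < B ∧ 0 < Λ ∧ ∀ f : E → ℝ → ℝ, Good M f →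
    (∀ i x t, f (x + L.b i) t = f x t) → ∀ s : ℝ,
    (∀ z z', |L.y z - L.y z'| ≤ 2 → |L.kbar f s z z'| ≤ B) ∧
    (∀ z z' w w', |L.y z - L.y z'| ≤ 2 → |L.y w - L.y w'| ≤ 2 →
      |L.kbar f s z z' - L.kbar f s w w'| ≤ Λ * (dist z w + dist z' w')) := by
  set B : ℝ := (L.Cb + 2) ^ 2 / 2 + |M| with hB
  have hC := L.Cb_nonneg
  have hB2 : 0 < B := by positivity
  set Λ : ℝ := Real.sqrt (2 * (B + |M|)) + 1 / 2 + |M| + 2 * B with hΛ
  have hΛ0 : 0 < Λ := by positivity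
  refine ⟨B, Λ, hB2, hΛ0, fun f hf _ s => ?_⟩
  have hM : |M| = M := abs_of_nonneg hf.pos
  have hbd : ∀ z z', |L.y z - L.y z'| ≤ 2 → |L.kbar f s z z'| ≤ B := by
    intro z z' h
    have h1 := kbar_ge L hf s z z'
    have h2 := kbar_le_of L hf s h
    rw [abs_le]
    constructor
    · rw [hB, hM]; nlinarith [sq_nonneg (L.Cb + 2)]
    · rw [hB, hM]; exact h2
  refine ⟨hbd, ?_⟩
  have key : ∀ z z' w w', |L.y z - L.y z'| ≤ 2 → |L.y w - L.y w'| ≤ 2 →
      L.kbar f s z z' ≤ L.kbar f s w w' + Λ * (dist z w + dist z' w') := by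
    intro z z' w w' hz hw
    have hd1 := dist_nonneg (x := z) (y := w)
    have hd2 := dist_nonneg (x := z') (y := w')
    rcases le_total 1 (dist z w + dist z' w') with h | h
    · have h1 := (abs_le.mp (hbd z z' hz)).2
      have h2 := (abs_le.mp (hbd w w' hw)).1
      have h3 : 2 * B ≤ Λ := by
        rw [hΛ]
        have := Real.sqrt_nonneg (2 * (B + |M|))
        have := abs_nonneg M
        linarith
      nlinarith
    · obtain ⟨n, hn⟩ := kbar_attained L hf s w w'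
      have h1 := kbar_le_ker L hf s z z' n
      have h2 := ker_shift hf (L.vel s) one_pos w (w' + L.lv n) z (z' + L.lv n)
      have h3 : ker f (L.vel s) 0 1 w (w' + L.lv n) ≤ B := by
        rw [← hn]; exact (abs_le.mp (hbd w w' hw)).2
      have h4 := disp_bd hf _ _ _ h3
      have e1 : (1 / ((1:ℝ) - 0)) • (w' + L.lv n - w) - L.vel s = w' + L.lv n - w - L.vel s := by
        rw [sub_zero, div_one, one_smul]
      have e2 : (z' + L.lv n - z) - (w' + L.lv n - w) = (z' - w') - (z - w) := by abel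
      have e3 : z' + L.lv n - (w' + L.lv n) = z' - w' := by abel
      rw [e1, e2, e3, sub_zero, mul_one, mul_one] at h2
      set D := dist z w + dist z' w' with hD
      have h5 : ‖(z' - w') - (z - w)‖ ≤ D := by
        refine (norm_sub_le _ _).trans ?_
        rw [hD, dist_eq_norm, dist_eq_norm]; linarith
      have h6 : inner ℝ (w' + L.lv n - w - L.vel s) ((z' - w') - (z - w))
          ≤ Real.sqrt (2 * (B + |M|)) * D := by
        refine (real_inner_le_norm _ _).trans ?_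
        rw [hM]
        gcongr
      have h7 : ‖(z' - w') - (z - w)‖ ^ 2 / 2 ≤ 1 / 2 * D := by
        have := norm_nonneg ((z' - w') - (z - w))
        nlinarith
      have h8 : M * (‖z - w‖ + ‖z' - w'‖) = |M| * D := by
        rw [hM, hD, dist_eq_norm, dist_eq_norm]
      have h9 : 0 ≤ 2 * B * D := by positivity
      have h10 : Λ * D = Real.sqrt (2 * (B + |M|)) * D + 1 / 2 * D + |M| * D + 2 * B * D := by
        rw [hΛ]; ring
      linarith
  intro z z' w w' hz hw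
  have h1 := key z z' w w' hz hw
  have h2 := key w w' z z' hw hz
  rw [dist_comm w z, dist_comm w' z'] at h2
  rw [abs_le]; constructor <;> linarith

/-- dependence on the speed -/
theorem kbar_speed (M : ℝ) : ∃ C : ℝ, 0 < C ∧ ∀ f : E → ℝ → ℝ, Good M f → ∀ s s' : ℝ,
    ‖L.vel s - L.vel s'‖ ≤ 1 → ∀ z z', |L.y z - L.y z'| ≤ 2 →
    |L.kbar f s z z' - L.kbar f s' z z'| ≤ C * ‖L.vel s - L.vel s'‖ := by
  set B : ℝ := (L.Cb + 2) ^ 2 / 2 + |M| with hB
  have hC := L.Cb_nonneg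
  have hB2 : 0 < B := by positivity
  set C : ℝ := Real.sqrt (2 * (B + |M|)) + 1 / 2 with hCC
  refine ⟨C, by positivity, fun f hf s s' hs z z' h => ?_⟩
  have hM : |M| = M := abs_of_nonneg hf.pos
  have key : ∀ r r', ‖L.vel r - L.vel r'‖ ≤ 1 →
      L.kbar f r z z' ≤ L.kbar f r' z z' + C * ‖L.vel r - L.vel r'‖ := by
    intro r r' hr
    obtain ⟨n, hn⟩ := kbar_attained L hf r' z z'
    have h1 := kbar_le_ker L hf r z z' n
    have h3 : ker f (L.vel r') 0 1 z (z' + L.lv n) ≤ B := by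
      rw [← hn, hB, hM]; exact kbar_le_of L hf r' h
    have h4 := disp_bd hf _ _ _ h3
    rw [ker_galilei hf (L.vel r) one_pos] at h1
    rw [ker_galilei hf (L.vel r') one_pos] at hn
    set a := z' + L.lv n - z with ha
    set δ := L.vel r - L.vel r' with hδ
    have e1 : L.vel r = L.vel r' + δ := by rw [hδ]; abel
    have e2 : (- inner ℝ (L.vel r) a + (1 - 0) * ‖L.vel r‖ ^ 2 / 2)
        - (- inner ℝ (L.vel r') a + (1 - 0) * ‖L.vel r'‖ ^ 2 / 2)
        = - inner ℝ (a - L.vel r') δ + ‖δ‖ ^ 2 / 2 := by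
      clear_value δ
      rw [e1, inner_add_left, norm_add_sq_real, inner_sub_left, real_inner_comm a δ]
      ring
    have h5 : - inner ℝ (a - L.vel r') δ ≤ Real.sqrt (2 * (B + |M|)) * ‖δ‖ := by
      have := (abs_le.mp (abs_real_inner_le_norm (a - L.vel r') δ)).1
      have h6 : ‖a - L.vel r'‖ * ‖δ‖ ≤ Real.sqrt (2 * (B + |M|)) * ‖δ‖ := by
        rw [hM]; gcongr
      linarith
    have h7 : ‖δ‖ ^ 2 / 2 ≤ 1 / 2 * ‖δ‖ := by
      have := norm_nonneg δ
      nlinarith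
    rw [hCC, add_mul]
    linarith
  have h1 := key s s' hs
  have h2 := key s' s (by rw [norm_sub_rev]; exact hs)
  rw [norm_sub_rev] at h2
  rw [abs_le]; constructor <;> linarith

/-! ### locality -/

theorem near_start {M B : ℝ} {f : E → ℝ → ℝ} (hf : Good M f) {v z : E} {u : ℝ → E} (hu : Adm u)
    (hact : act f v 0 1 z u ≤ B + 1) {w : ℝ} (hw' : w < 1) {t : ℝ} (ht : t ∈ Icc 0 w) :
    ‖traj 0 z u t - (z + t • v)‖ ≤ Real.sqrt (2 * (B + M + 1) * w) := by
  have hE : (∫ t in (0:ℝ)..1, ‖u t - v‖ ^ 2 / 2) ≤ B + M + 1 := by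
    have := energy_le_act hf v zero_le_one z hu
    linarith
  rcases eq_or_lt_of_le ht.1 with h0 | h0
  · rw [← h0]
    simp [traj, Real.sqrt_nonneg]
  have h1 := jensen (hu.sub_const v) h0
  have e1 : (∫ s in (0:ℝ)..t, (u s - v)) = traj 0 z u t - (z + t • v) := by
    rw [integral_sub (hu.ii 0 t) (by simp)]
    simp only [traj, intervalIntegral.integral_const, sub_zero]
    abel
  rw [e1, sub_zero] at h1
  have h2 : (∫ s in (0:ℝ)..t, ‖u s - v‖ ^ 2 / 2) ≤ ∫ s in (0:ℝ)..1, ‖u s - v‖ ^ 2 / 2 := by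
    rw [← integral_add_adjacent_intervals ((hu.sub_const v).sq_ii 0 t) ((hu.sub_const v).sq_ii t 1)]
    have : 0 ≤ ∫ s in t..1, ‖u s - v‖ ^ 2 / 2 :=
      intervalIntegral.integral_nonneg (by linarith [ht.2]) fun s _ => by positivity
    linarith
  have h3 : 0 ≤ ∫ s in (0:ℝ)..t, ‖u s - v‖ ^ 2 / 2 :=
    intervalIntegral.integral_nonneg ht.1 fun s _ => by positivity
  apply Real.le_sqrt_of_sq_le
  rw [div_le_iff₀ (by positivity)] at h1
  have h4 : (∫ s in (0:ℝ)..t, ‖u s - v‖ ^ 2 / 2) * (2 * t) ≤ (B + M + 1) * (2 * w) := by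
    apply mul_le_mul (h2.trans hE) (by linarith [ht.2]) (by linarith) (by linarith)
  linarith

theorem near_end {M B : ℝ} {f : E → ℝ → ℝ} (hf : Good M f) {v z : E} {u : ℝ → E} (hu : Adm u)
    (hact : act f v 0 1 z u ≤ B + 1) {w : ℝ} (hw' : w < 1) {t : ℝ}
    (ht : t ∈ Icc (1 - w) 1) :
    ‖traj 0 z u t - (traj 0 z u 1 - (1 - t) • v)‖ ≤ Real.sqrt (2 * (B + M + 1) * w) := by
  have hE : (∫ t in (0:ℝ)..1, ‖u t - v‖ ^ 2 / 2) ≤ B + M + 1 := by
    have := energy_le_act hf v zero_le_one z hu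
    linarith
  rcases eq_or_lt_of_le ht.2 with h0 | h0
  · rw [h0]
    simp [Real.sqrt_nonneg]
  have h1 := jensen (hu.sub_const v) h0
  have e1 : (∫ s in t..1, (u s - v)) = -(traj 0 z u t - (traj 0 z u 1 - (1 - t) • v)) := by
    rw [integral_sub (hu.ii t 1) (by simp)]
    have : traj 0 z u 1 = traj 0 z u t + ∫ s in t..1, u s := by
      unfold traj
      rw [add_assoc, integral_add_adjacent_intervals (hu.ii 0 t) (hu.ii t 1)]
    rw [this]
    simp only [intervalIntegral.integral_const]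
    abel
  rw [e1, norm_neg] at h1
  have ht0 : 0 ≤ t := by linarith [ht.1]
  have h2 : (∫ s in t..1, ‖u s - v‖ ^ 2 / 2) ≤ ∫ s in (0:ℝ)..1, ‖u s - v‖ ^ 2 / 2 := by
    rw [← integral_add_adjacent_intervals ((hu.sub_const v).sq_ii 0 t) ((hu.sub_const v).sq_ii t 1)]
    have : 0 ≤ ∫ s in (0:ℝ)..t, ‖u s - v‖ ^ 2 / 2 :=
      intervalIntegral.integral_nonneg ht0 fun s _ => by positivity
    linarith
  have h3 : 0 ≤ ∫ s in t..1, ‖u s - v‖ ^ 2 / 2 :=
    intervalIntegral.integral_nonneg h0.le fun s _ => by positivity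
  apply Real.le_sqrt_of_sq_le
  have h5 : 0 < 1 - t := by linarith
  rw [div_le_iff₀ (by positivity)] at h1
  have h4 : (∫ s in t..1, ‖u s - v‖ ^ 2 / 2) * (2 * (1 - t)) ≤ (B + M + 1) * (2 * w) := by
    apply mul_le_mul (h2.trans hE) (by linarith [ht.1]) (by linarith) (by linarith)
  linarith

/-- Locality / growth lemma. Near-minimizers of `f'` stay in the tube of radius
`ρ = sqrt (2 (B + M + 1) w)` around the free motion during `[0,w]` and `[1-w,1]`. -/
theorem kbar_tube {M B : ℝ} {f f' : E → ℝ → ℝ} (hf : Good M f) (hf' : Good M f')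
    (hp : ∀ i x t, f (x + L.b i) t = f x t) (hp' : ∀ i x t, f' (x + L.b i) t = f' x t)
    (s : ℝ) (z z' : E) (hB : L.kbar f' s z z' ≤ B) {w : ℝ} (_hw : 0 < w) (hw' : w < 1 / 2)
    (κ : ℝ → ℝ) (hκ : IntervalIntegrable κ volume 0 1)
    (h0 : ∀ t ∈ Icc 0 w, ∀ r : E, ‖r‖ ≤ Real.sqrt (2 * (B + M + 1) * w) →
      f (z + t • L.vel s + r) t + κ t ≤ f' (z + t • L.vel s + r) t)
    (h1 : ∀ t ∈ Icc (1 - w) 1, ∀ r : E, ‖r‖ ≤ Real.sqrt (2 * (B + M + 1) * w) →
      f (z' - (1 - t) • L.vel s + r) t + κ t ≤ f' (z' - (1 - t) • L.vel s + r) t)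
    (hm : ∀ t ∈ Ioo w (1 - w), ∀ x, f x t + κ t ≤ f' x t) :
    L.kbar f s z z' + ∫ t in (0:ℝ)..1, κ t ≤ L.kbar f' s z z' := by
  apply le_of_forall_pos_le_add
  intro ε hε
  obtain ⟨n, hn⟩ := kbar_attained L hf' s z z'
  obtain ⟨u, hu, hz, hact⟩ := exists_act_lt hf' (L.vel s) one_pos z (z' + L.lv n)
    (lt_min hε one_pos)
  rw [← hn] at hact
  have hact1 : act f' (L.vel s) 0 1 z u ≤ B + 1 := by linarith [min_le_right ε 1]
  have hact2 : act f' (L.vel s) 0 1 z u ≤ L.kbar f' s z z' + ε := by linarith [min_le_left ε 1]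
  have h2 := (kbar_le_ker L hf s z z' n).trans (ker_le_act' hf (L.vel s) one_pos hu hz)
  have h3 : (∫ t in (0:ℝ)..1, f (traj 0 z u t) t) + (∫ t in (0:ℝ)..1, κ t)
      ≤ ∫ t in (0:ℝ)..1, f' (traj 0 z u t) t := by
    rw [← integral_add (f_traj_ii hf hu 0 z 0 1) hκ]
    apply integral_mono_on zero_le_one ((f_traj_ii hf hu 0 z 0 1).add hκ) (f_traj_ii hf' hu 0 z 0 1)
    intro t ht
    by_cases hA : t ≤ w
    · have h4 := near_start hf' hu hact1 (by linarith) (t := t) ⟨ht.1, hA⟩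
      have h5 := h0 t ⟨ht.1, hA⟩ _ h4
      have e : z + t • L.vel s + (traj 0 z u t - (z + t • L.vel s)) = traj 0 z u t := by abel
      rwa [e] at h5
    by_cases hB' : 1 - w ≤ t
    · have h4 := near_end hf' hu hact1 (by linarith) (t := t) ⟨hB', ht.2⟩
      have h5 := h1 t ⟨hB', ht.2⟩ _ h4
      rw [hz] at h5
      have e : z' - (1 - t) • L.vel s + (traj 0 z u t - (z' + L.lv n - (1 - t) • L.vel s))
          = traj 0 z u t + L.lv (-n) := by rw [L.lv_neg]; abel
      rwa [e, per_lv L hp, per_lv L hp'] at h5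
    · exact hm t ⟨not_le.mp hA, not_le.mp hB'⟩ _
  rw [act_eq hf _ _ _ _ hu] at h2
  rw [act_eq hf' _ _ _ _ hu] at hact2
  linarith

/-! ### the free part -/

theorem P_setY (x : E) (η : ℝ) : L.P (L.setY x η) = L.P x := by
  unfold Lat.setY
  rw [L.P_add, L.P_smul, L.P_e, smul_zero, add_zero]

theorem y_setY (x : E) (η : ℝ) : L.y (L.setY x η) = η := by
  unfold Lat.setY
  rw [L.y_add, L.y_smul, L.y_e]; ring

theorem dpart_setY (s : ℝ) (z z' : E) (η η' : ℝ) :
    L.dpart s (L.setY z η) (L.setY z' η') = L.dpart s z z' := by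
  unfold Lat.dpart
  rw [L.P_sub, P_setY, P_setY, ← L.P_sub]

theorem dpart_nonneg (s : ℝ) (z z' : E) : 0 ≤ L.dpart s z z' := by
  apply Real.iInf_nonneg
  intro n
  positivity

/-! ### the compact cell and the room -/

theorem cell_eq (p : ℝ) : L.cell p = (fun q : ℝ × (Fin d → ℝ) => (∑ i, q.2 i • L.b i) + q.1 • L.e) ''
    (Icc (p - 7 / 8) (p + 7 / 8) ×ˢ Icc 0 1) := by
  ext x
  constructor
  · rintro ⟨h1, θ, hθ, hx⟩
    refine ⟨(L.y x, θ), ⟨?_, ?_⟩, ?_⟩
    · rw [abs_le] at h1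
      constructor <;> simp only <;> linarith
    · exact ⟨fun i => (hθ i).1, fun i => (hθ i).2⟩
    · simp only
      rw [← hx, L.P_add_y]
  · rintro ⟨⟨η, θ⟩, ⟨h1, h2⟩, rfl⟩
    simp only at h1 h2 ⊢
    have hy : L.y ((∑ i, θ i • L.b i) + η • L.e) = η := by
      rw [L.y_add, L.y_comb, L.y_smul, L.y_e]; ring
    refine ⟨?_, θ, fun i => ⟨h2.1 i, h2.2 i⟩, ?_⟩
    · rw [hy, abs_le]; constructor <;> linarith [h1.1, h1.2]
    · rw [L.P_add, L.P_smul, L.P_e, smul_zero, add_zero, L.P_of_y (L.y_comb θ)]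

theorem cell_compact (p : ℝ) : IsCompact (L.cell p) := by
  rw [cell_eq]
  apply (isCompact_Icc.prod isCompact_Icc).image
  fun_prop

theorem cell_nonempty (p : ℝ) : (L.cell p).Nonempty := by
  rw [cell_eq]
  exact ⟨_, (p, 0), ⟨⟨by simp only; linarith, by simp only; linarith⟩, ⟨le_refl _, fun _ => zero_le_one⟩⟩, rfl⟩

theorem cell_subset (p : ℝ) : L.cell p ⊆ L.room p := fun _ hx => hx.1

theorem exists_lv_cell (p : ℝ) (x : E) (hx : x ∈ L.room p) : ∃ n : Fin d → ℤ, x + L.lv n ∈ L.cell p := by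
  obtain ⟨n, θ, hθ, e⟩ := L.exists_red (L.y_P x)
  refine ⟨n, ?_, θ, hθ, ?_⟩
  · rw [L.y_add, L.y_lv, add_zero]; exact hx
  · rw [L.P_add, L.P_lv, e]

/-- hence the standing assumptions of module D -/
theorem kd_kbar (M : ℝ) : ∃ B Λ : ℝ, 0 < B ∧ 0 < Λ ∧ ∀ f : E → ℝ → ℝ, Good M f →
    (∀ i x t, f (x + L.b i) t = f x t) → ∀ s p : ℝ,
    KD (L.kbar f s) (L.cell p) (L.room p) B Λ := by
  obtain ⟨B, Λ, hB, hΛ, h⟩ := kbar_bd_lip L M
  refine ⟨B, Λ, hB, hΛ, fun f hf hp s p => ?_⟩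
  obtain ⟨h1, h2⟩ := h f hf hp s
  have hroom : ∀ z ∈ L.room p, ∀ z' ∈ L.room p, |L.y z - L.y z'| ≤ 2 := by
    intro z hz z' hz'
    have a1 := abs_le.mp (show |L.y z - p| ≤ 7 / 8 from hz)
    have a2 := abs_le.mp (show |L.y z' - p| ≤ 7 / 8 from hz')
    rw [abs_le]; constructor <;> linarith [a1.1, a1.2, a2.1, a2.2]
  refine ⟨cell_subset L p, cell_compact L p, cell_nonempty L p, fun z hz z' hz' => h1 z z' (hroom z hz z' hz'),
    fun z hz w hw z' hz' w' hw' => h2 z z' w w' (hroom z hz z' hz') (hroom w hw w' hw'), ?_⟩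
  intro z hz
  obtain ⟨n, hn⟩ := exists_lv_cell L p z hz
  refine ⟨_, hn, fun x _ => ⟨?_, ?_⟩⟩
  · have := kbar_per L hp s z x n 0
    rw [L.lv_zero, add_zero] at this
    exact this.symm
  · have := kbar_per L hp s x z 0 n
    rw [L.lv_zero, add_zero] at this
    exact this.symm

/-! ### potentials on the torus are good -/

/-- a continuous function with the periods of the torus is bounded above -/
theorem per_bdd {φ : E × ℝ → ℝ} (hφ : Continuous φ) (hb : ∀ i q, φ (q + (L.b i, 0)) = φ q)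
    (hg : ∀ q, φ (q + (L.g, 0)) = φ q) (ht : ∀ q, φ (q + (0, 1)) = φ q) : ∃ C, ∀ q, φ q ≤ C := by
  let H : AddSubgroup (E × ℝ) :=
    { carrier := {γ | ∀ q, φ (q + γ) = φ q}
      zero_mem' := by intro x; rw [add_zero]
      add_mem' := by
        intro a b ha hb x
        rw [← add_assoc, hb, ha]
      neg_mem' := by
        intro a ha x
        have := ha (x + -a)
        rw [← this]; congr 1; abel }
  have Hb : ∀ i, ((L.b i, 0) : E × ℝ) ∈ H := fun i q => hb i q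
  have Hg : ((L.g, 0) : E × ℝ) ∈ H := fun q => hg q
  have Ht : ((0, 1) : E × ℝ) ∈ H := fun q => ht q
  have Hlv : ∀ n : Fin d → ℤ, ((L.lv n, 0) : E × ℝ) ∈ H := by
    intro n
    have : ((L.lv n, 0) : E × ℝ) = ∑ i, n i • ((L.b i, 0) : E × ℝ) := by
      ext
      · simp [Lat.lv, Prod.fst_sum, Int.cast_smul_eq_zsmul]
      · simp [Prod.snd_sum]
    rw [this]
    exact H.sum_mem fun i _ => H.zsmul_mem (Hb i) _
  obtain ⟨C, hC⟩ := ((cell_compact L 0).prod (isCompact_Icc (a := (0:ℝ)) (b := 1))).exists_bound_of_continuousOn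
    hφ.continuousOn
  refine ⟨C, ?_⟩
  rintro ⟨x, t⟩
  set k : ℤ := ⌊L.y x + 1 / 2⌋ with hk
  have hy : |L.y (x + (-k) • L.g) - 0| ≤ 7 / 8 := by
    have h1 := Int.floor_le (L.y x + 1 / 2)
    have h2 := Int.lt_floor_add_one (L.y x + 1 / 2)
    rw [← hk] at h1 h2
    rw [L.y_add, ← Int.cast_smul_eq_zsmul ℝ, L.y_smul, L.y_g, abs_le]
    push_cast
    constructor <;> linarith
  obtain ⟨n, hn⟩ := exists_lv_cell L 0 (x + (-k) • L.g) hy
  have hmem : ((x + (-k) • L.g + L.lv n, Int.fract t) : E × ℝ) ∈ L.cell 0 ×ˢ Icc (0:ℝ) 1 :=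
    ⟨hn, Int.fract_nonneg _, (Int.fract_lt_one _).le⟩
  have h3 := hC _ hmem
  have h4 : ((-k) • ((L.g, 0) : E × ℝ)) + (L.lv n, 0) + (-⌊t⌋) • ((0, 1) : E × ℝ) ∈ H :=
    H.add_mem (H.add_mem (H.zsmul_mem Hg _) (Hlv n)) (H.zsmul_mem Ht _)
  have h5 : φ ((x, t) + (((-k) • ((L.g, 0) : E × ℝ)) + (L.lv n, 0) + (-⌊t⌋) • ((0, 1) : E × ℝ)))
      = φ (x, t) := h4 (x, t)
  have h6 : ((x, t) : E × ℝ) + (((-k) • ((L.g, 0) : E × ℝ)) + (L.lv n, 0) + (-⌊t⌋) • ((0, 1) : E × ℝ))
      = (x + (-k) • L.g + L.lv n, Int.fract t) := by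
    ext
    · simp; abel
    · have h7 : Int.fract t = t - ⌊t⌋ := rfl
      simp
      linarith
  rw [h6] at h5
  rw [← h5]
  exact (le_abs_self _).trans h3

theorem isPot_good {f : E → ℝ → ℝ} (hf : L.IsPot f) : ∃ M, Good M f := by
  set F : E × ℝ → ℝ := fun q => f q.1 q.2 with hF
  have hFc : Continuous F := hf.smooth.continuous
  have hFd : Differentiable ℝ F := hf.smooth.differentiable (by norm_num)
  have pb : ∀ i q, F (q + (L.b i, 0)) = F q := fun i q => by
    simp only [hF, Prod.fst_add, Prod.snd_add, add_zero]; exact hf.perb i _ _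
  have pg : ∀ q, F (q + (L.g, 0)) = F q := fun q => by
    simp only [hF, Prod.fst_add, Prod.snd_add, add_zero]; exact hf.perg _ _
  have pt : ∀ q, F (q + (0, 1)) = F q := fun q => by
    simp only [hF, Prod.fst_add, Prod.snd_add, add_zero]; exact hf.pert _ _
  have der : ∀ γ, (∀ q, F (q + γ) = F q) → ∀ q, fderiv ℝ F (q + γ) = fderiv ℝ F q := by
    intro γ h q
    have h1 : (fun q => F (q + γ)) = F := funext h
    have h2 := fderiv_comp_add_right (𝕜 := ℝ) (f := F) (x := q) γ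
    rw [h1] at h2
    exact h2.symm
  have hF'n : Continuous fun q => ‖fderiv ℝ F q‖ := (hf.smooth.continuous_fderiv (by norm_num)).norm
  obtain ⟨C1, hC1⟩ := per_bdd L (φ := fun q => |F q|) hFc.abs (fun i q => by simp only [pb])
    (fun q => by simp only [pg]) (fun q => by simp only [pt])
  obtain ⟨C2, hC2⟩ := per_bdd L (φ := fun q => ‖fderiv ℝ F q‖) hF'n
    (fun i q => by simp only [der _ (pb i)]) (fun q => by simp only [der _ pg])
    (fun q => by simp only [der _ pt])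
  have hC1' : 0 ≤ C1 := (abs_nonneg _).trans (hC1 0)
  have hC2' : 0 ≤ C2 := (ContinuousLinearMap.opNorm_nonneg _).trans (hC2 0)
  have hlip : ∀ q q', |F q - F q'| ≤ C2 * ‖q - q'‖ := by
    intro q q'
    have := Convex.norm_image_sub_le_of_norm_fderiv_le (𝕜 := ℝ) (f := F) (s := univ) (x := q') (y := q)
      (fun z _ => hFd z) (fun z _ => hC2 z) convex_univ (mem_univ _) (mem_univ _)
    exact this
  refine ⟨C1 + C2, by positivity, hFc, fun x t => (hC1 (x, t)).trans (by linarith), ?_, ?_⟩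
  · intro x x' t
    have h1 := hlip (x, t) (x', t)
    have h2 : ‖((x, t) : E × ℝ) - (x', t)‖ = ‖x - x'‖ := by
      rw [Prod.mk_sub_mk, sub_self, Prod.norm_mk, norm_zero, max_eq_left (norm_nonneg _)]
    rw [h2] at h1
    have := norm_nonneg (x - x')
    exact h1.trans (by nlinarith)
  · intro x t t'
    have h1 := hlip (x, t) (x, t')
    have h2 : ‖((x, t) : E × ℝ) - (x, t')‖ = |t - t'| := by
      rw [Prod.mk_sub_mk, sub_self, Prod.norm_mk, norm_zero, max_eq_right (norm_nonneg _),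
        Real.norm_eq_abs]
    rw [h2] at h1
    have := abs_nonneg (t - t')
    exact h1.trans (by nlinarith)

theorem isPot_add_sm {f G : E → ℝ → ℝ} (hf : L.IsPot f) (hG : L.IsSm G) :
    L.IsPot (fun x t => f x t + G x t) where
  smooth := hf.smooth.add (hG.smooth.of_le ENat.LEInfty.out)
  perb i x t := by rw [hf.perb, hG.perb]
  perg x t := by rw [hf.perg, hG.perg]
  pert x t := by rw [hf.pert, hG.pert]

end ModuleK2

end Esc
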