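import Pool.Agent.helper42.Esc.K2

/-!
Module A of the escape theorem (MP_6acca1_an), part 1: averages and the averaging theorem.
-/

set_option linter.unusedSectionVars false

noncomputable section

namespace Esc

open MeasureTheory Set Filter Topology intervalIntegral
open scoped ContDiff

section ModuleA

variable {d : ℕ} {E : Type*} [NormedAddCommGroup E] [InnerProductSpace ℝ E] [FiniteDimensional ℝ E]
  (L : Lat d E)

/-! ### general facts on `Good` -/

theorem Good.mono {F : Type*} [NormedAddCommGroup F] [InnerProductSpace ℝ F] {M M' : ℝ}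
    {f : F → ℝ → ℝ} (hf : Good M f) (h : M ≤ M') : Good M' f where
  pos := hf.pos.trans h
  cont := hf.cont
  bd x t := (hf.bd x t).trans h
  lipx x x' t := (hf.lipx x x' t).trans (by gcongr)
  lipt x t t' := (hf.lipt x t t').trans (by gcongr)

theorem Good.line {F : Type*} [NormedAddCommGroup F] [InnerProductSpace ℝ F] {M : ℝ}
    {f : F → ℝ → ℝ} (hf : Good M f) (b x : F) (t : ℝ) : Continuous fun θ : ℝ => f (x + θ • b) t :=
  hf.cont.comp ((continuous_const.add (continuous_id.smul continuous_const)).prodMk continuous_const)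

/-- One step averaging. -/
theorem avg_step {F : Type*} [NormedAddCommGroup F] [InnerProductSpace ℝ F] {G : F → ℝ → ℝ} {B : ℝ}
    (hG : Good B G) {b : F} {τ : ℝ} (hτ0 : 0 < τ) (hτ1 : τ ≤ 1) {x : ℝ → F} (hx : Continuous x) {r : ℝ}
    (hr : ∀ t ∈ Icc (0:ℝ) (1 - τ), ∀ h ∈ Icc (0:ℝ) τ,
      |G (x (t + h)) (t + h) - G (x t + (h / τ) • b) t| ≤ r) :
    |(∫ t in (0:ℝ)..1, G (x t) t) - ∫ t in (0:ℝ)..1, Lat.avg1 b G (x t) t| ≤ r + 2 * B * τ := by
  have hB := hG.bd
  have hr0 : 0 ≤ r := le_trans (abs_nonneg _) (hr 0 ⟨le_refl _, by linarith⟩ 0 ⟨le_refl _, hτ0.le⟩)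
  have hB0 : 0 ≤ B := hG.pos
  have hc1 : Continuous fun t => G (x t) t := hG.cont.comp (hx.prodMk continuous_id)
  have hc2 : ∀ θ : ℝ, Continuous fun t => G (x t + θ • b) t := fun θ =>
    hG.cont.comp ((hx.add continuous_const).prodMk continuous_id)
  have hc3 : Continuous (Function.uncurry fun t θ : ℝ => G (x t + θ • b) t) := by
    have : (Function.uncurry fun t θ : ℝ => G (x t + θ • b) t)
        = (fun p : F × ℝ => G p.1 p.2) ∘ fun p : ℝ × ℝ => (x p.1 + p.2 • b, p.1) := by
      ext ⟨t, θ⟩; rfl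
    rw [this]
    exact hG.cont.comp (((hx.comp continuous_fst).add (continuous_snd.smul continuous_const)).prodMk
      continuous_fst)
  have hc4 : Continuous fun θ : ℝ => ∫ t in (0:ℝ)..1, G (x t + θ • b) t := by
    apply intervalIntegral.continuous_parametric_intervalIntegral_of_continuous'
    exact hc3.comp continuous_swap
  -- key bound for each θ
  have key : ∀ θ ∈ Icc (0:ℝ) 1, |(∫ t in (0:ℝ)..1, G (x t) t) - ∫ t in (0:ℝ)..1, G (x t + θ • b) t|
      ≤ r + 2 * B * τ := by
    intro θ hθ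
    set h := θ * τ with hh
    have hh0 : 0 ≤ h := mul_nonneg hθ.1 hτ0.le
    have hh1 : h ≤ τ := by nlinarith [hθ.2]
    have hhτ : h / τ = θ := by rw [hh]; field_simp
    have e1 : (∫ t in (0:ℝ)..1, G (x t) t) = (∫ t in (0:ℝ)..h, G (x t) t)
        + ∫ t in h..1, G (x t) t :=
      (integral_add_adjacent_intervals (hc1.intervalIntegrable _ _) (hc1.intervalIntegrable _ _)).symm
    have e2 : (∫ t in h..1, G (x t) t) = ∫ t in (0:ℝ)..(1 - h), G (x (t + h)) (t + h) := by
      have := intervalIntegral.integral_comp_add_right (a := 0) (b := 1 - h) (fun t => G (x t) t) h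
      rw [this]; simp
    have hc5 : Continuous fun t => G (x (t + h)) (t + h) := hc1.comp (continuous_id.add continuous_const)
    have e3 : (∫ t in (0:ℝ)..(1 - h), G (x (t + h)) (t + h))
        = (∫ t in (0:ℝ)..(1 - τ), G (x (t + h)) (t + h)) + ∫ t in (1 - τ)..(1 - h), G (x (t + h)) (t + h) :=
      (integral_add_adjacent_intervals (hc5.intervalIntegrable _ _) (hc5.intervalIntegrable _ _)).symm
    have e4 : (∫ t in (0:ℝ)..1, G (x t + θ • b) t) = (∫ t in (0:ℝ)..(1 - τ), G (x t + θ • b) t)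
        + ∫ t in (1 - τ)..1, G (x t + θ • b) t :=
      (integral_add_adjacent_intervals ((hc2 θ).intervalIntegrable _ _)
        ((hc2 θ).intervalIntegrable _ _)).symm
    have b1 : |∫ t in (0:ℝ)..h, G (x t) t| ≤ B * h := by
      have := norm_integral_le_of_norm_le_const (a := 0) (b := h) (C := B)
        (f := fun t => G (x t) t) (fun t _ => hB _ _)
      simpa [abs_of_nonneg hh0] using this
    have b2 : |∫ t in (1 - τ)..(1 - h), G (x (t + h)) (t + h)| ≤ B * (τ - h) := by
      have := norm_integral_le_of_norm_le_const (a := 1 - τ) (b := 1 - h) (C := B)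
        (f := fun t => G (x (t + h)) (t + h)) (fun t _ => hB _ _)
      have h3 : |1 - h - (1 - τ)| = τ - h := by rw [abs_of_nonneg (by linarith)]; ring
      rw [h3] at this
      exact this
    have b3 : |∫ t in (1 - τ)..1, G (x t + θ • b) t| ≤ B * τ := by
      have := norm_integral_le_of_norm_le_const (a := 1 - τ) (b := 1) (C := B)
        (f := fun t => G (x t + θ • b) t) (fun t _ => hB _ _)
      have h3 : |1 - (1 - τ)| = τ := by rw [abs_of_nonneg (by linarith)]; ring
      rw [h3] at this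
      exact this
    have b4 : |(∫ t in (0:ℝ)..(1 - τ), G (x (t + h)) (t + h))
        - ∫ t in (0:ℝ)..(1 - τ), G (x t + θ • b) t| ≤ r * (1 - τ) := by
      rw [← integral_sub (hc5.intervalIntegrable _ _) ((hc2 θ).intervalIntegrable _ _)]
      have := norm_integral_le_of_norm_le_const (a := 0) (b := 1 - τ) (C := r)
        (f := fun t => G (x (t + h)) (t + h) - G (x t + θ • b) t) (fun t ht => by
          rw [uIoc_of_le (by linarith)] at ht
          have := hr t ⟨ht.1.le, ht.2⟩ h ⟨hh0, hh1⟩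
          rw [hhτ] at this
          exact this)
      have h3 : |1 - τ - 0| = 1 - τ := by rw [abs_of_nonneg (by linarith)]; ring
      rw [h3] at this
      exact this
    rw [e1, e2, e3, e4]
    have hrτ : r * (1 - τ) ≤ r := by nlinarith
    have : B * h + B * (τ - h) + B * τ = 2 * B * τ := by ring
    calc _ = |(∫ t in (0:ℝ)..h, G (x t) t) + ((∫ t in (0:ℝ)..(1 - τ), G (x (t + h)) (t + h))
          - ∫ t in (0:ℝ)..(1 - τ), G (x t + θ • b) t) + (∫ t in (1 - τ)..(1 - h), G (x (t + h)) (t + h))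
          - ∫ t in (1 - τ)..1, G (x t + θ • b) t| := by congr 1; ring
      _ ≤ |∫ t in (0:ℝ)..h, G (x t) t| + |(∫ t in (0:ℝ)..(1 - τ), G (x (t + h)) (t + h))
          - ∫ t in (0:ℝ)..(1 - τ), G (x t + θ • b) t| + |∫ t in (1 - τ)..(1 - h), G (x (t + h)) (t + h)|
          + |∫ t in (1 - τ)..1, G (x t + θ • b) t| := by
            refine (abs_sub _ _).trans ?_
            gcongr
            refine (abs_add_le _ _).trans ?_
            gcongr
            exact abs_add_le _ _
      _ ≤ _ := by linarith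
  have hswap : (∫ t in (0:ℝ)..1, ∫ θ in (0:ℝ)..1, G (x t + θ • b) t)
      = ∫ θ in (0:ℝ)..1, ∫ t in (0:ℝ)..1, G (x t + θ • b) t := by
    apply intervalIntegral_intervalIntegral_swap
    have := (hc3.continuousOn (s := Icc 0 1 ×ˢ Icc 0 1)).integrableOn_compact (μ := volume)
      (isCompact_Icc.prod isCompact_Icc)
    rw [uIoc_of_le zero_le_one]
    exact this.mono_set (prod_mono Ioc_subset_Icc_self Ioc_subset_Icc_self)
  unfold Lat.avg1
  rw [hswap]
  have hA : (∫ t in (0:ℝ)..1, G (x t) t) = ∫ θ in (0:ℝ)..1, (∫ t in (0:ℝ)..1, G (x t) t) := by simp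
  rw [hA, ← integral_sub (continuous_const.intervalIntegrable _ _) (hc4.intervalIntegrable _ _)]
  have := norm_integral_le_of_norm_le_const (a := 0) (b := 1) (C := r + 2 * B * τ)
    (f := fun θ : ℝ => (∫ t in (0:ℝ)..1, G (x t) t) - ∫ t in (0:ℝ)..1, G (x t + θ • b) t)
    (fun θ hθ => by
      rw [uIoc_of_le zero_le_one] at hθ
      exact key θ ⟨hθ.1.le, hθ.2⟩)
  simpa using this

section avg1

variable {F : Type*} [NormedAddCommGroup F] [InnerProductSpace ℝ F]

theorem Good.avg1 {M : ℝ} {f : F → ℝ → ℝ} (hf : Good M f) (b : F) : Good M (Lat.avg1 b f) where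
  pos := hf.pos
  cont := by
    unfold Lat.avg1
    apply intervalIntegral.continuous_parametric_intervalIntegral_of_continuous'
    exact hf.cont.comp (((continuous_fst.comp continuous_fst).add
      (continuous_snd.smul continuous_const)).prodMk (continuous_snd.comp continuous_fst))
  bd x t := by
    have := norm_integral_le_of_norm_le_const (a := 0) (b := 1) (C := M)
      (f := fun θ : ℝ => f (x + θ • b) t) (fun θ _ => hf.bd _ _)
    simpa [Lat.avg1] using this
  lipx x x' t := by
    unfold Lat.avg1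
    rw [← integral_sub ((hf.line b x t).intervalIntegrable _ _)
      ((hf.line b x' t).intervalIntegrable _ _)]
    have := norm_integral_le_of_norm_le_const (a := 0) (b := 1) (C := M * ‖x - x'‖)
      (f := fun θ : ℝ => f (x + θ • b) t - f (x' + θ • b) t) (fun θ _ => by
        refine (hf.lipx _ _ _).trans (le_of_eq ?_)
        congr 2
        abel)
    simpa using this
  lipt x t t' := by
    unfold Lat.avg1
    rw [← integral_sub ((hf.line b x t).intervalIntegrable _ _)
      ((hf.line b x t').intervalIntegrable _ _)]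
    have := norm_integral_le_of_norm_le_const (a := 0) (b := 1) (C := M * |t - t'|)
      (f := fun θ : ℝ => f (x + θ • b) t - f (x + θ • b) t') (fun θ _ => hf.lipt _ _ _)
    simpa using this

theorem avg1_add {G : F → ℝ → ℝ} {a : F} (ha : ∀ x t, G (x + a) t = G x t) (b : F) :
    ∀ x t, Lat.avg1 b G (x + a) t = Lat.avg1 b G x t := by
  intro x t
  unfold Lat.avg1
  congr 1
  ext θ
  rw [add_right_comm, ha]

theorem avg1_time {G : F → ℝ → ℝ} (ha : ∀ x t, G x (t + 1) = G x t) (b : F) :
    ∀ x t, Lat.avg1 b G x (t + 1) = Lat.avg1 b G x t := by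
  intro x t
  unfold Lat.avg1
  congr 1
  ext θ
  rw [ha]

/-- the average is invariant under all real multiples of `b` -/
theorem avg1_smul {G : F → ℝ → ℝ} {b : F} (hb : ∀ x t, G (x + b) t = G x t) (r : ℝ) :
    ∀ x t, Lat.avg1 b G (x + r • b) t = Lat.avg1 b G x t := by
  intro x t
  unfold Lat.avg1
  have hper : Function.Periodic (fun θ : ℝ => G (x + θ • b) t) 1 := by
    intro θ
    simp only [add_smul, one_smul, ← add_assoc, hb]
  have h1 : (∫ θ in (0:ℝ)..1, G (x + r • b + θ • b) t) = ∫ θ in (0:ℝ)..1, G (x + (θ + r) • b) t := by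
    congr 1; ext θ; congr 1; rw [add_smul, add_assoc, add_comm (r • b)]
  rw [h1]
  have h2 := intervalIntegral.integral_comp_add_right (a := 0) (b := 1)
    (fun θ : ℝ => G (x + θ • b) t) r
  rw [h2]
  have h3 := hper.intervalIntegral_add_eq r 0
  simpa [add_comm] using h3

theorem avg1_sub_le {M : ℝ} {G G' : F → ℝ → ℝ} (hG : Good M G) (hG' : Good M G') {ρ : ℝ}
    (h : ∀ x t, |G x t - G' x t| ≤ ρ) (b : F) : ∀ x t, |Lat.avg1 b G x t - Lat.avg1 b G' x t| ≤ ρ := by
  intro x t
  unfold Lat.avg1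
  rw [← integral_sub ((hG.line b x t).intervalIntegrable _ _)
    ((hG'.line b x t).intervalIntegrable _ _)]
  have := norm_integral_le_of_norm_le_const (a := 0) (b := 1) (C := ρ)
    (f := fun θ : ℝ => G (x + θ • b) t - G' (x + θ • b) t) (fun θ _ => h _ _)
  simpa using this

end avg1

/-! ### iterated averages -/

theorem good_avgN {M : ℝ} {f : E → ℝ → ℝ} (hf : Good M f) (k : ℕ) : Good M (L.avgN f k) := by
  induction k with
  | zero => exact hf
  | succ k ih =>
    simp only [Lat.avgN]
    split_ifs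
    · exact ih.avg1 _
    · exact ih

theorem avgN_add {f : E → ℝ → ℝ} {a : E} (ha : ∀ x t, f (x + a) t = f x t) (k : ℕ) :
    ∀ x t, L.avgN f k (x + a) t = L.avgN f k x t := by
  induction k with
  | zero => exact ha
  | succ k ih =>
    simp only [Lat.avgN]
    split_ifs
    · exact avg1_add ih _
    · exact ih

theorem avgN_time {f : E → ℝ → ℝ} (ha : ∀ x t, f x (t + 1) = f x t) (k : ℕ) :
    ∀ x t, L.avgN f k x (t + 1) = L.avgN f k x t := by
  induction k with
  | zero => exact ha
  | succ k ih =>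
    simp only [Lat.avgN]
    split_ifs
    · exact avg1_time ih _
    · exact ih

theorem avgN_smul {f : E → ℝ → ℝ} (hb : ∀ i x t, f (x + L.b i) t = f x t) {k : ℕ} {i : Fin d}
    (hi : d ≤ (i : ℕ) + k) (r : ℝ) : ∀ x t, L.avgN f k (x + r • L.b i) t = L.avgN f k x t := by
  induction k with
  | zero => exact absurd i.2 (by omega)
  | succ k ih =>
    simp only [Lat.avgN]
    split_ifs with h
    · by_cases h2 : (i : ℕ) = d - 1 - k
      · have h3 : L.b ⟨d - 1 - k, by omega⟩ = L.b i := congrArg L.b (Fin.ext h2.symm)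
        rw [h3]
        exact avg1_smul (avgN_add L (hb _) k) r
      · exact avg1_add (ih (by omega)) _
    · exact ih (by omega)

theorem avgN_sum {f : E → ℝ → ℝ} (hb : ∀ i x t, f (x + L.b i) t = f x t) {k : ℕ} (c : Fin d → ℝ)
    (s : Finset (Fin d)) (hs : ∀ i ∈ s, d ≤ (i : ℕ) + k) :
    ∀ x t, L.avgN f k (x + ∑ i ∈ s, c i • L.b i) t = L.avgN f k x t := by
  classical
  induction s using Finset.induction_on with
  | empty => intro x t; simp
  | insert a s ha ih =>
    intro x t
    rw [Finset.sum_insert ha, ← add_assoc, ih (fun i hi => hs i (Finset.mem_insert_of_mem hi)),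
      avgN_smul L hb (hs a (Finset.mem_insert_self _ _))]

theorem avgN_proj {f : E → ℝ → ℝ} (hb : ∀ i x t, f (x + L.b i) t = f x t) (x : E) (t : ℝ) :
    L.avgN f d x t = L.fbar f (L.y x) t := by
  unfold Lat.fbar
  obtain ⟨c, hc⟩ := L.exists_comb (L.y_P x)
  have : x = L.y x • L.e + ∑ i, c i • L.b i := by rw [← hc, add_comm, L.P_add_y]
  conv_lhs => rw [this]
  exact avgN_sum L hb c _ (fun i _ => by omega) _ _

theorem good_fbar {M : ℝ} {f : E → ℝ → ℝ} (hf : Good M f) : Good M (L.fbar f) where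
  pos := hf.pos
  cont := by
    unfold Lat.fbar
    exact (good_avgN L hf d).cont.comp ((continuous_fst.smul continuous_const).prodMk continuous_snd)
  bd x t := (good_avgN L hf d).bd _ _
  lipx x x' t := by
    refine ((good_avgN L hf d).lipx _ _ _).trans (le_of_eq ?_)
    rw [← sub_smul, norm_smul, L.norm_e, mul_one]
  lipt x t t' := (good_avgN L hf d).lipt _ _ _

theorem fbar_per {f : E → ℝ → ℝ} (hb : ∀ i x t, f (x + L.b i) t = f x t)
    (hg : ∀ x t, f (x + L.g) t = f x t) (η t : ℝ) : L.fbar f (η + 1) t = L.fbar f η t := by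
  have h1 := avgN_proj L hb (η • L.e + L.g) t
  rw [L.y_add, L.y_smul, L.y_e, L.y_g, mul_one, avgN_add L hg, avgN_proj L hb, L.y_smul, L.y_e,
    mul_one] at h1
  exact h1.symm

theorem fbar_time {f : E → ℝ → ℝ} (ht : ∀ x t, f x (t + 1) = f x t) (η t : ℝ) :
    L.fbar f η (t + 1) = L.fbar f η t := avgN_time L ht d _ _

theorem avgN_sub_le {M ρ : ℝ} {f f' : E → ℝ → ℝ} (hf : Good M f) (hf' : Good M f')
    (h : ∀ x t, |f x t - f' x t| ≤ ρ) (k : ℕ) : ∀ x t, |L.avgN f k x t - L.avgN f' k x t| ≤ ρ := by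
  induction k with
  | zero => exact h
  | succ k ih =>
    simp only [Lat.avgN]
    split_ifs
    · exact avg1_sub_le (good_avgN L hf k) (good_avgN L hf' k) ih _
    · exact ih

theorem fbar_sub_le {M ρ : ℝ} {f f' : E → ℝ → ℝ} (hf : Good M f) (hf' : Good M f')
    (h : ∀ x t, |f x t - f' x t| ≤ ρ) (η t : ℝ) : |L.fbar f η t - L.fbar f' η t| ≤ ρ :=
  avgN_sub_le L hf hf' h d _ _

/-! ### error estimate for paths of bounded energy -/

theorem incr_bd {F : Type*} [NormedAddCommGroup F] [InnerProductSpace ℝ F] [CompleteSpace F]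
    {v z : F} {u : ℝ → F} (hu : Adm u) {C0 : ℝ} (hE : (∫ t in (0:ℝ)..1, ‖u t - v‖ ^ 2 / 2) ≤ C0)
    {t h : ℝ} (ht : 0 ≤ t) (hh : 0 ≤ h) (hth : t + h ≤ 1) :
    ‖traj 0 z u (t + h) - traj 0 z u t - h • v‖ ≤ Real.sqrt (2 * C0 * h) := by
  rcases eq_or_lt_of_le hh with h0 | h0
  · rw [← h0]; simp
  have h1 := jensen (hu.sub_const v) (show t < t + h by linarith)
  have e1 : (∫ s in t..(t + h), (u s - v)) = traj 0 z u (t + h) - traj 0 z u t - h • v := by
    rw [integral_sub (hu.ii _ _) (by simp)]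
    have : traj 0 z u (t + h) = traj 0 z u t + ∫ s in t..(t + h), u s := by
      unfold traj
      rw [add_assoc, integral_add_adjacent_intervals (hu.ii _ _) (hu.ii _ _)]
    rw [this]
    simp only [intervalIntegral.integral_const, add_sub_cancel_left]
  rw [e1, add_sub_cancel_left] at h1
  have h2 : (∫ s in t..(t + h), ‖u s - v‖ ^ 2 / 2) ≤ ∫ s in (0:ℝ)..1, ‖u s - v‖ ^ 2 / 2 := by
    have hq := (hu.sub_const v).sq_ii
    rw [← integral_add_adjacent_intervals (hq 0 t) (hq t 1),
      ← integral_add_adjacent_intervals (hq t (t + h)) (hq (t + h) 1)]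
    have h3 : 0 ≤ ∫ s in (0:ℝ)..t, ‖u s - v‖ ^ 2 / 2 :=
      intervalIntegral.integral_nonneg ht fun s _ => by positivity
    have h4 : 0 ≤ ∫ s in (t + h)..1, ‖u s - v‖ ^ 2 / 2 :=
      intervalIntegral.integral_nonneg hth fun s _ => by positivity
    linarith
  apply Real.le_sqrt_of_sq_le
  rw [div_le_iff₀ (by positivity)] at h1
  have h5 : (∫ s in t..(t + h), ‖u s - v‖ ^ 2 / 2) * (2 * h) ≤ C0 * (2 * h) := by
    gcongr
    exact h2.trans hE
  linarith

/-- one averaging step along `b i` -/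
theorem avgN_step {M : ℝ} {f : E → ℝ → ℝ} (hf : Good M f) (hb : ∀ i x t, f (x + L.b i) t = f x t)
    {s : ℝ} (hs : 1 ≤ s) {k : ℕ} (hk : k < d) {z : E} {u : ℝ → E} (hu : Adm u) {C0 : ℝ} (hC0 : 0 ≤ C0)
    (hE : (∫ t in (0:ℝ)..1, ‖u t - L.vel s‖ ^ 2 / 2) ≤ C0) :
    |(∫ t in (0:ℝ)..1, L.avgN f k (traj 0 z u t) t) - ∫ t in (0:ℝ)..1, L.avgN f (k + 1) (traj 0 z u t) t|
      ≤ M * (Real.sqrt (2 * C0 / s) + (L.Cb + 3) / s) := by
  have hs0 : 0 < s := by linarith
  have hM := hf.pos
  have hgood := good_avgN L hf k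
  set i : Fin d := ⟨d - 1 - k, by omega⟩ with hi
  have hN : ∀ x t, L.avgN f (k + 1) x t = Lat.avg1 (L.b i) (L.avgN f k) x t := by
    intro x t
    simp only [Lat.avgN, dif_pos hk]
    rfl
  set τ : ℝ := 1 / s ^ ((i : ℕ) + 1) with hτ
  have hsp : 1 ≤ s ^ ((i : ℕ) + 1) := one_le_pow₀ hs
  have hτ0 : 0 < τ := by positivity
  have hτ1 : τ ≤ 1 := by rw [hτ, div_le_one (by positivity)]; exact hsp
  have hτs : τ ≤ 1 / s := by
    rw [hτ]
    apply one_div_le_one_div_of_le hs0
    calc s = s ^ 1 := (pow_one s).symm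
      _ ≤ s ^ ((i : ℕ) + 1) := pow_le_pow_right₀ hs (by omega)
  simp_rw [hN]
  have hCb := L.Cb_nonneg
  have := avg_step hgood (b := L.b i) hτ0 hτ1 (x := traj 0 z u) (traj_cont hu 0 z)
    (r := M * (Real.sqrt (2 * C0 / s) + (L.Cb + 1) / s)) ?_
  · refine this.trans ?_
    have h1 : 2 * M * τ ≤ M * (2 / s) := by
      have : M * (2 * τ) ≤ M * (2 / s) := by
        gcongr
        calc 2 * τ ≤ 2 * (1 / s) := by gcongr
          _ = 2 / s := by ring
      linarith
    calc _ ≤ M * (Real.sqrt (2 * C0 / s) + (L.Cb + 1) / s) + M * (2 / s) := by gcongr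
      _ = _ := by rw [← mul_add, add_assoc, ← add_div]; ring_nf
  · intro t ht h hh
    -- decomposition of the displacement
    set w := traj 0 z u (t + h) - traj 0 z u t - h • L.vel s with hw
    have hwn : ‖w‖ ≤ Real.sqrt (2 * C0 * h) := incr_bd hu hE ht.1 hh.1 (by linarith [ht.2, hh.2])
    have hvel : h • L.vel s = (∑ j ∈ Finset.univ.filter (fun j : Fin d => (j : ℕ) < i), (h * s ^ ((j : ℕ) + 1)) • L.b j)
        + (h / τ) • L.b i
        + ∑ j ∈ Finset.univ.filter (fun j : Fin d => (i : ℕ) < j), (h * s ^ ((j : ℕ) + 1)) • L.b j := by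
      classical
      have h1 : (h / τ) = h * s ^ ((i : ℕ) + 1) := by rw [hτ]; field_simp
      unfold Lat.vel
      rw [Finset.smul_sum, h1]
      simp_rw [smul_smul]
      set φ : Fin d → E := fun j => (h * s ^ ((j : ℕ) + 1)) • L.b j with hφ
      have h2 : ∑ j, φ j = (∑ j ∈ Finset.univ.filter (fun j : Fin d => (j : ℕ) < i), φ j)
          + ∑ j ∈ Finset.univ.filter (fun j : Fin d => ¬ (j : ℕ) < i), φ j :=
        (Finset.sum_filter_add_sum_filter_not _ _ _).symm
      have h3 : Finset.univ.filter (fun j : Fin d => ¬ (j : ℕ) < i)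
          = insert i (Finset.univ.filter (fun j : Fin d => (i : ℕ) < j)) := by
        ext j
        simp only [Finset.mem_filter, Finset.mem_univ, true_and, Finset.mem_insert]
        constructor
        · intro hj
          by_cases hji : (j : ℕ) = i
          · left; exact Fin.ext hji
          · right; omega
        · rintro (rfl | hj)
          · omega
          · omega
      rw [h2, h3, Finset.sum_insert (by simp), ← add_assoc]
    set A := ∑ j ∈ Finset.univ.filter (fun j : Fin d => (j : ℕ) < i), (h * s ^ ((j : ℕ) + 1)) • L.b j with hA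
    set C := ∑ j ∈ Finset.univ.filter (fun j : Fin d => (i : ℕ) < j), (h * s ^ ((j : ℕ) + 1)) • L.b j with hC
    have hAn : ‖A‖ ≤ L.Cb / s := by
      rw [hA]
      refine (norm_sum_le _ _).trans ?_
      unfold Lat.Cb
      rw [Finset.sum_div]
      have hterm : ∀ j ∈ Finset.univ.filter (fun j : Fin d => (j : ℕ) < i),
          ‖(h * s ^ ((j : ℕ) + 1)) • L.b j‖ ≤ ‖L.b j‖ / s := by
        intro j hj
        simp only [Finset.mem_filter, Finset.mem_univ, true_and] at hj
        have hsj : s ^ ((j : ℕ) + 1) * s ≤ s ^ ((i : ℕ) + 1) := by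
          rw [← pow_succ]
          exact pow_le_pow_right₀ hs (by omega)
        have hcoef : h * s ^ ((j : ℕ) + 1) ≤ 1 / s := by
          rw [le_div_iff₀ hs0]
          calc h * s ^ ((j : ℕ) + 1) * s = h * (s ^ ((j : ℕ) + 1) * s) := by ring
            _ ≤ τ * s ^ ((i : ℕ) + 1) := by
                apply mul_le_mul hh.2 hsj (by positivity) hτ0.le
            _ = 1 := by rw [hτ]; field_simp
        rw [norm_smul, Real.norm_of_nonneg (mul_nonneg hh.1 (by positivity))]
        have := norm_nonneg (L.b j)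
        calc _ ≤ (1 / s) * ‖L.b j‖ := by gcongr
          _ = ‖L.b j‖ / s := by ring
      refine (Finset.sum_le_sum hterm).trans ?_
      exact Finset.sum_le_sum_of_subset_of_nonneg (Finset.filter_subset _ _)
        (fun j _ _ => by positivity)
    have hx : traj 0 z u (t + h) = (traj 0 z u t + (h / τ) • L.b i + (w + A)) + C := by
      have : traj 0 z u (t + h) = traj 0 z u t + h • L.vel s + w := by rw [hw]; abel
      rw [this, hvel]; abel
    have hinv : L.avgN f k (traj 0 z u (t + h)) (t + h)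
        = L.avgN f k (traj 0 z u t + (h / τ) • L.b i + (w + A)) (t + h) := by
      rw [hx, hC]
      exact avgN_sum L hb _ _ (fun j hj => by
        simp only [Finset.mem_filter, Finset.mem_univ, true_and] at hj
        simp only [hi] at hj
        omega) _ _
    rw [hinv]
    have h1 := hgood.lipx (traj 0 z u t + (h / τ) • L.b i + (w + A)) (traj 0 z u t + (h / τ) • L.b i) (t + h)
    have h2 := hgood.lipt (traj 0 z u t + (h / τ) • L.b i) (t + h) t
    rw [add_sub_cancel_left] at h1 h2
    have h3 : ‖w + A‖ ≤ Real.sqrt (2 * C0 / s) + L.Cb / s := by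
      refine (norm_add_le _ _).trans (add_le_add (hwn.trans ?_) hAn)
      apply Real.sqrt_le_sqrt
      calc 2 * C0 * h ≤ 2 * C0 * (1 / s) := by
            gcongr
            exact hh.2.trans hτs
        _ = 2 * C0 / s := by ring
    have h4 : |h| ≤ 1 / s := by rw [abs_of_nonneg hh.1]; exact hh.2.trans hτs
    have h5 : M * ‖w + A‖ ≤ M * (Real.sqrt (2 * C0 / s) + L.Cb / s) := by gcongr
    have h6 : M * |h| ≤ M * (1 / s) := by gcongr
    have h7 := abs_sub_le (L.avgN f k (traj 0 z u t + (h / τ) • L.b i + (w + A)) (t + h))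
      (L.avgN f k (traj 0 z u t + (h / τ) • L.b i) (t + h)) (L.avgN f k (traj 0 z u t + (h / τ) • L.b i) t)
    have h8 : M * (Real.sqrt (2 * C0 / s) + (L.Cb + 1) / s)
        = M * (Real.sqrt (2 * C0 / s) + L.Cb / s) + M * (1 / s) := by
      rw [← mul_add, add_assoc, ← add_div]
    linarith

end ModuleA

end Esc
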