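import Pool.Agent.helper42.Esc.A2

/-!
Module A of the escape theorem (MP_6acca1_an), part 3: density of the data class.
-/

set_option linter.unusedSectionVars false

noncomputable section

namespace Esc

open MeasureTheory Set Filter Topology intervalIntegral
open scoped ContDiff

section ModuleA

variable {d : ℕ} {E : Type*} [NormedAddCommGroup E] [InnerProductSpace ℝ E] [FiniteDimensional ℝ E]
  (L : Lat d E)

theorem avgN_mf (f : E → ℝ → ℝ) (l : ℕ) (k : ℕ) (x : E) (t : ℝ) :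
    L.avgN (L.mf l f) k x t = L.avgN f k (x + ((l : ℝ) * t) • L.g) t := by
  induction k generalizing x t with
  | zero => rfl
  | succ k ih =>
    simp only [Lat.avgN]
    split_ifs
    · unfold Lat.avg1
      congr 1
      ext θ
      rw [ih, add_right_comm]
    · exact ih x t

theorem fbar_mf {f : E → ℝ → ℝ} (hb : ∀ i x t, f (x + L.b i) t = f x t) (l : ℕ) (η t : ℝ) :
    L.fbar (L.mf l f) η t = L.fbar f (η + l * t) t := by
  have h := avgN_mf L f l d (η • L.e) t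
  rw [avgN_proj L hb, L.y_add, L.y_smul, L.y_smul, L.y_e, L.y_g, mul_one, mul_one] at h
  exact h

theorem avgN_add_inv {M : ℝ} {A B : E → ℝ → ℝ} (hA : Good M A)
    (hB : ∀ i (r : ℝ) x t, B (x + r • L.b i) t = B x t) (k : ℕ) (x : E) (t : ℝ) :
    L.avgN (fun x t => A x t + B x t) k x t = L.avgN A k x t + B x t := by
  induction k generalizing x t with
  | zero => rfl
  | succ k ih =>
    simp only [Lat.avgN]
    split_ifs
    · unfold Lat.avg1
      simp_rw [ih, hB]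
      rw [integral_add (((good_avgN L hA k).line _ _ _).intervalIntegrable _ _) (by simp)]
      simp
    · exact ih x t

/-- averaging in the moving frame -/
theorem mf_avg {M : ℝ} {F : ℝ → ℝ → ℝ} (hF : Good M F) (hper : ∀ η t, F (η + 1) t = F η t)
    {l : ℕ} (hl : 1 ≤ l) {a : ℝ} {u : ℝ → ℝ} (hu : Adm u) {C0 : ℝ} (hC0 : 0 ≤ C0)
    (hE : (∫ t in (0:ℝ)..1, ‖u t - 0‖ ^ 2 / 2) ≤ C0) :
    |(∫ t in (0:ℝ)..1, F (traj 0 a u t + l * t) t) - ∫ t in (0:ℝ)..1, Lat.avg1 (1:ℝ) F 0 t|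
      ≤ M * (Real.sqrt (2 * C0 / l) + 2 / l) + M * (1 / l) := by
  have hl0 : (0:ℝ) < l := by exact_mod_cast hl
  have hl1 : (1:ℝ) ≤ l := by exact_mod_cast hl
  have hM := hF.pos
  have hinv : ∀ x t, Lat.avg1 (1:ℝ) F x t = Lat.avg1 (1:ℝ) F 0 t := by
    intro x t
    have := avg1_smul (b := (1:ℝ)) hper x 0 t
    simpa using this
  have := avg_step hF (b := (1:ℝ)) (τ := 1 / l) (by positivity)
    (by rw [div_le_one hl0]; exact hl1) (x := fun t => traj 0 a u t + l * t)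
    ((traj_cont hu 0 a).add (by fun_prop)) (r := M * Real.sqrt (2 * C0 / l) + M * (1 / l)) ?_
  · simp_rw [hinv] at this
    refine this.trans (le_of_eq ?_)
    ring
  · intro t ht h hh
    have h1 : h / (1 / (l:ℝ)) = l * h := by field_simp
    rw [h1, smul_eq_mul, mul_one]
    have h2 := hF.lipx (traj 0 a u (t + h) + l * (t + h)) (traj 0 a u t + l * t + l * h) (t + h)
    have h3 := hF.lipt (traj 0 a u t + l * t + l * h) (t + h) t
    have h4 := incr_bd (z := a) hu hE ht.1 hh.1 (by linarith [ht.2, hh.2])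
    have h5 : traj 0 a u (t + h) + l * (t + h) - (traj 0 a u t + l * t + l * h)
        = traj 0 a u (t + h) - traj 0 a u t - h • (0:ℝ) := by
      rw [smul_zero]; ring
    rw [h5] at h2
    rw [add_sub_cancel_left, abs_of_nonneg hh.1] at h3
    have h6 : Real.sqrt (2 * C0 * h) ≤ Real.sqrt (2 * C0 / l) := by
      apply Real.sqrt_le_sqrt
      calc 2 * C0 * h ≤ 2 * C0 * (1 / l) := by
            gcongr
            exact hh.2
        _ = 2 * C0 / l := by ring
    have h7 : M * ‖traj 0 a u (t + h) - traj 0 a u t - h • (0:ℝ)‖ ≤ M * Real.sqrt (2 * C0 / l) := by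
      gcongr
      exact h4.trans h6
    have h8 : M * h ≤ M * (1 / l) := by
      gcongr
      exact hh.2
    have h9 := abs_sub_le (F (traj 0 a u (t + h) + l * (t + h)) (t + h))
      (F (traj 0 a u t + l * t + l * h) (t + h)) (F (traj 0 a u t + l * t + l * h) t)
    linarith

/-! ### flat one-dimensional kernels -/

/-- the time integral of `F` along paths of bounded energy is almost constant -/
def Flat (F : ℝ → ℝ → ℝ) (Φ C0 e : ℝ) : Prop :=
  ∀ a (u : ℝ → ℝ), Adm u → (∫ t in (0:ℝ)..1, ‖u t - 0‖ ^ 2 / 2) ≤ C0 →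
    |(∫ t in (0:ℝ)..1, F (traj 0 a u t) t) - Φ| ≤ e

theorem sup_int {M : ℝ} {F : ℝ → ℝ → ℝ} (hb : ∀ x t, |F x t| ≤ M) (x : ℝ → ℝ) :
    |∫ t in (0:ℝ)..1, F (x t) t| ≤ M := by
  have := norm_integral_le_of_norm_le_const (a := 0) (b := 1) (C := M)
    (f := fun t => F (x t) t) (fun t _ => hb _ _)
  simpa using this

/-- a priori energy bound for near-minimizers -/
theorem apriori {M1 M : ℝ} {F : ℝ → ℝ → ℝ} (hF : Good M1 F) (hb : ∀ x t, |F x t| ≤ M)
    {a b : ℝ} (hab : |b - a| ≤ 2) {u : ℝ → ℝ} (hu : Adm u)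
    (hact : act F 0 0 1 a u ≤ ker F 0 0 1 a b + 1) :
    (∫ t in (0:ℝ)..1, ‖u t - 0‖ ^ 2 / 2) ≤ 2 * M + 4 := by
  have h1 : ker F (0:ℝ) 0 1 a b ≤ 2 + M := by
    refine (ker_le_act' hF _ one_pos (Adm.const _) (traj_line a b one_pos)).trans ?_
    rw [act_eq hF _ _ _ _ (Adm.const _)]
    have h2 := (abs_le.mp (sup_int hb (fun t => traj 0 a (fun _ => (1 / ((1:ℝ) - 0)) • (b - a)) t))).2
    have h3 : (∫ _t in (0:ℝ)..1, ‖(1 / ((1:ℝ) - 0)) • (b - a) - 0‖ ^ 2 / 2) ≤ 2 := by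
      simp only [sub_zero, div_one, one_smul, intervalIntegral.integral_const, Real.norm_eq_abs,
        sq_abs]
      have := abs_le.mp hab
      nlinarith [sq_abs (b - a), abs_nonneg (b - a)]
    linarith
  rw [act_eq hF _ _ _ _ hu] at hact
  have h2 := (abs_le.mp (sup_int hb (fun t => traj 0 a u t))).1
  linarith

theorem line_act {M1 : ℝ} {F : ℝ → ℝ → ℝ} (hF : Good M1 F) {Φ C0 e : ℝ} (hC0 : 2 ≤ C0)
    (hflat : Flat F Φ C0 e) {a b : ℝ} (hab : |b - a| ≤ 2) :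
    ker F (0:ℝ) 0 1 a b ≤ Φ + (b - a) ^ 2 / 2 + e := by
  refine (ker_le_act' hF _ one_pos (Adm.const _) (traj_line a b one_pos)).trans ?_
  rw [act_eq hF _ _ _ _ (Adm.const _)]
  have h3 : (∫ _t in (0:ℝ)..1, ‖(1 / ((1:ℝ) - 0)) • (b - a) - 0‖ ^ 2 / 2) = (b - a) ^ 2 / 2 := by
    simp only [sub_zero, div_one, one_smul, intervalIntegral.integral_const, Real.norm_eq_abs,
      sq_abs]
  have h4 : (b - a) ^ 2 / 2 ≤ 2 := by
    have := abs_le.mp hab
    nlinarith [sq_abs (b - a), abs_nonneg (b - a)]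
  have h5 := hflat a _ (Adm.const _) (by rw [h3]; linarith)
  rw [h3]
  linarith [(abs_le.mp h5).2]

theorem flat_ker {M1 M : ℝ} {F : ℝ → ℝ → ℝ} (hF : Good M1 F) (hb : ∀ x t, |F x t| ≤ M)
    {Φ e : ℝ} (hM : 0 ≤ M) (hflat : Flat F Φ (2 * M + 4) e) {a b : ℝ} (hab : |b - a| ≤ 2) :
    |ker F (0:ℝ) 0 1 a b - Φ - (b - a) ^ 2 / 2| ≤ e := by
  rw [abs_le]
  constructor
  · have : Φ + (b - a) ^ 2 / 2 - e ≤ ker F (0:ℝ) 0 1 a b := by
      apply le_of_forall_pos_le_add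
      intro ε hε
      obtain ⟨u, hu, hz, hact⟩ := exists_act_lt hF (0:ℝ) one_pos a b (lt_min hε one_pos)
      have hE := apriori hF hb hab hu (by linarith [min_le_right ε 1])
      have h1 := hflat a u hu hE
      have h2 := jensen (hu.sub_const 0) (zero_lt_one' ℝ)
      have h3 : (∫ t in (0:ℝ)..1, (u t - 0)) = b - a := by
        simp only [sub_zero]
        rw [← hz]; unfold traj; ring
      rw [h3, sub_zero, mul_one, Real.norm_eq_abs, sq_abs] at h2
      rw [act_eq hF _ _ _ _ hu] at hact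
      linarith [min_le_left ε 1, (abs_le.mp h1).1]
    linarith
  · have := line_act hF (by linarith) hflat hab
    linarith

/-- near-minimizers of closed kernels of almost flat potentials stay close to the base point -/
theorem stay_close {M1 M : ℝ} {F F' : ℝ → ℝ → ℝ} (hF : Good M1 F) (hF' : Good M1 F')
    (hb' : ∀ x t, |F' x t| ≤ M)
    {Φ e ε₁ ε' : ℝ} (hM : 0 ≤ M) (hflat : Flat F Φ (2 * M + 4) e) (hle : ∀ x t, F x t ≤ F' x t)
    (hge : ∀ x t, F' x t ≤ F x t + 2 * ε₁) (hε' : ε' ≤ 1)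
    (hsmall : 2 * e + 2 * ε₁ + ε' ≤ 1 / 20000) {v : ℝ} {u : ℝ → ℝ} (hu : Adm u)
    (hact : act F' 0 0 1 v u ≤ ker F' 0 0 1 v v + ε') {t : ℝ} (ht : t ∈ Icc (0:ℝ) 1) :
    |traj 0 v u t - v| ≤ 1 / 64 := by
  have hE := apriori hF' hb' (a := v) (b := v) (by simp) hu (by linarith)
  have h1 := hflat v u hu hE
  -- upper bound of the kernel of F'
  have h2 : ker F' (0:ℝ) 0 1 v v ≤ Φ + e + 2 * ε₁ := by
    have h3 := line_act hF (by linarith) hflat (a := v) (b := v) (by simp)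
    have h4 := ker_le_add (ρ := 2 * ε₁) hF' hF (fun x t => by linarith [hge x t]) (0:ℝ) one_pos v v
    simp only [sub_self] at h3
    linarith
  rw [act_eq hF' _ _ _ _ hu] at hact
  have h5 : (∫ t in (0:ℝ)..1, F (traj 0 v u t) t) ≤ ∫ t in (0:ℝ)..1, F' (traj 0 v u t) t :=
    integral_mono_on zero_le_one (f_traj_ii hF hu 0 v 0 1) (f_traj_ii hF' hu 0 v 0 1)
      (fun t _ => hle _ _)
  have hE2 : (∫ t in (0:ℝ)..1, ‖u t - 0‖ ^ 2 / 2) ≤ 1 / 20000 := by
    linarith [(abs_le.mp h1).1]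
  have h6 := incr_bd (z := v) hu hE2 (t := 0) (h := t) le_rfl ht.1 (by linarith [ht.2])
  have h7 : traj 0 v u (0 + t) - traj 0 v u 0 - t • (0:ℝ) = traj 0 v u t - v := by
    rw [zero_add, smul_zero, sub_zero]
    congr 1
    simp [traj]
  rw [h7, Real.norm_eq_abs] at h6
  refine h6.trans ?_
  rw [Real.sqrt_le_left (by norm_num)]
  nlinarith [ht.2]

/-! ### the bump -/

/-- the bump `1 - cos 2π(η - p)` -/
def cb (p η : ℝ) : ℝ := 1 - Real.cos (2 * Real.pi * (η - p))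

theorem cb_eq (p η : ℝ) : cb p η = 2 * Real.sin (Real.pi * (η - p)) ^ 2 := by
  unfold cb
  have h1 := Real.cos_sq' (Real.pi * (η - p))
  have h2 := Real.cos_two_mul (Real.pi * (η - p))
  have h3 : 2 * Real.pi * (η - p) = 2 * (Real.pi * (η - p)) := by ring
  rw [h3, h2, h1]; ring

theorem cb_nonneg (p η : ℝ) : 0 ≤ cb p η := by rw [cb_eq]; positivity

theorem cb_le_two (p η : ℝ) : cb p η ≤ 2 := by
  unfold cb; linarith [Real.neg_one_le_cos (2 * Real.pi * (η - p))]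

theorem cb_small {p η : ℝ} (h : |η - p| ≤ 1 / 64) : cb p η ≤ 5 / 1000 := by
  rw [cb_eq]
  have h1 := Real.abs_sin_le_abs (x := Real.pi * (η - p))
  rw [abs_mul, abs_of_pos Real.pi_pos] at h1
  have h2 : Real.pi * |η - p| ≤ 3.15 * (1 / 64) := by
    apply mul_le_mul Real.pi_lt_d2.le h (abs_nonneg _) (by norm_num)
  have h3 := h1.trans h2
  rw [← sq_abs]
  have h4 := abs_nonneg (Real.sin (Real.pi * (η - p)))
  nlinarith

theorem cb_large {p η : ℝ} (h : 3 / 32 ≤ |η - p|) (h' : |η - p| ≤ 29 / 32) : 9 / 128 ≤ cb p η := by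
  rw [cb_eq]
  have key : ∀ x : ℝ, 3 / 32 ≤ x → x ≤ 29 / 32 → 3 / 16 ≤ Real.sin (Real.pi * x) := by
    intro x h1 h2
    have hpi := Real.pi_pos
    rcases le_total x (1 / 2) with h3 | h3
    · have := Real.mul_le_sin (x := Real.pi * x) (by positivity) (by nlinarith)
      have h4 : 2 / Real.pi * (Real.pi * x) = 2 * x := by field_simp
      linarith
    · have := Real.mul_le_sin (x := Real.pi * (1 - x)) (by
        apply mul_nonneg hpi.le; linarith) (by nlinarith)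
      have h4 : 2 / Real.pi * (Real.pi * (1 - x)) = 2 * (1 - x) := by field_simp
      have h5 : Real.sin (Real.pi * (1 - x)) = Real.sin (Real.pi * x) := by
        rw [mul_sub, mul_one, Real.sin_pi_sub]
      linarith
  have h1 := key _ h h'
  have h2 : Real.sin (Real.pi * |η - p|) ^ 2 = Real.sin (Real.pi * (η - p)) ^ 2 := by
    rcases abs_choice (η - p) with h3 | h3
    · rw [h3]
    · rw [h3, mul_neg, Real.sin_neg, neg_sq]
  rw [← h2]
  nlinarith

/-- the perturbation in the original frame -/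
def gsm (l : ℕ) (p : ℝ) (x : E) (t : ℝ) : ℝ := cb p (L.y x - l * t)

theorem isSm_gsm (l : ℕ) (p : ℝ) : L.IsSm (gsm L l p) where
  smooth := by
    have h1 : ContDiff ℝ ∞ (fun q : E × ℝ => L.y q.1) := (innerSL ℝ L.e).contDiff.comp contDiff_fst
    unfold gsm cb
    exact contDiff_const.sub (Real.contDiff_cos.comp (contDiff_const.mul
      ((h1.sub (contDiff_const.mul contDiff_snd)).sub contDiff_const)))
  perb i x t := by
    unfold gsm
    rw [L.y_add, L.y_b, add_zero]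
  perg x t := by
    unfold gsm cb
    rw [L.y_add, L.y_g]
    congr 1
    have : 2 * Real.pi * (L.y x + 1 - l * t - p) = 2 * Real.pi * (L.y x - l * t - p) + 2 * Real.pi := by
      ring
    rw [this, Real.cos_add_two_pi]
  pert x t := by
    unfold gsm cb
    congr 1
    have : 2 * Real.pi * (L.y x - l * (t + 1) - p)
        = 2 * Real.pi * (L.y x - l * t - p) - l * (2 * Real.pi) := by
      ring
    rw [this, Real.cos_sub_nat_mul_two_pi]

theorem mf_gsm (l : ℕ) (p : ℝ) (x : E) (t : ℝ) : L.mf l (gsm L l p) x t = cb p (L.y x) := by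
  unfold Lat.mf gsm
  rw [L.y_add, L.y_smul, L.y_g]
  congr 1
  ring

theorem diag_ge {M1 M : ℝ} {F F' : ℝ → ℝ → ℝ} (hF : Good M1 F) (hF' : Good M1 F')
    (hb' : ∀ x t, |F' x t| ≤ M) {Φ e ε₁ p : ℝ} (hM : 0 ≤ M) (hflat : Flat F Φ (2 * M + 4) e)
    (hε₁ : 0 ≤ ε₁) (heq : ∀ x t, F' x t = F x t + ε₁ * cb p x)
    (hsmall : 2 * e + 2 * ε₁ ≤ 1 / 40000) {v m : ℝ}
    (hm : ∀ η, |η - v| ≤ 1 / 64 → m ≤ cb p η) :
    ker F (0:ℝ) 0 1 v v + ε₁ * m ≤ ker F' (0:ℝ) 0 1 v v := by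
  apply le_of_forall_pos_le_add
  intro ε hε
  obtain ⟨u, hu, hz, hact⟩ := exists_act_lt hF' (0:ℝ) one_pos v v
    (lt_min hε (by norm_num : (0:ℝ) < 1 / 40000))
  have m1 := min_le_left ε (1 / 40000)
  have m2 := min_le_right ε (1 / 40000)
  have hle : ∀ x t, F x t ≤ F' x t := fun x t => by
    rw [heq]; have := mul_nonneg hε₁ (cb_nonneg p x); linarith
  have hge : ∀ x t, F' x t ≤ F x t + 2 * ε₁ := fun x t => by
    rw [heq]; have := mul_le_mul_of_nonneg_left (cb_le_two p x) hε₁; linarith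
  have hst : ∀ t ∈ Icc (0:ℝ) 1, |traj 0 v u t - v| ≤ 1 / 64 := fun t ht =>
    stay_close hF hF' hb' hM hflat hle hge (ε' := min ε (1 / 40000)) (m2.trans (by norm_num))
      (by linarith) hu hact.le ht
  have h1 := ker_le_act' hF (0:ℝ) one_pos hu hz
  rw [act_eq hF _ _ _ _ hu] at h1
  rw [act_eq hF' _ _ _ _ hu] at hact
  have h2 : (∫ t in (0:ℝ)..1, (F (traj 0 v u t) t + ε₁ * m)) ≤ ∫ t in (0:ℝ)..1, F' (traj 0 v u t) t := by
    apply integral_mono_on zero_le_one ((f_traj_ii hF hu 0 v 0 1).add (by simp)) (f_traj_ii hF' hu 0 v 0 1)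
    intro t ht
    rw [heq]
    have := mul_le_mul_of_nonneg_left (hm _ (hst t ht)) hε₁
    linarith
  rw [integral_add (f_traj_ii hF hu 0 v 0 1) (by simp)] at h2
  simp only [intervalIntegral.integral_const, sub_zero, smul_eq_mul, one_mul] at h2
  linarith

theorem diag_le {M1 M : ℝ} {F F' : ℝ → ℝ → ℝ} (hF : Good M1 F) (hF' : Good M1 F')
    (hb : ∀ x t, |F x t| ≤ M) {Φ e ε₁ p : ℝ} (hM : 0 ≤ M) (hflat : Flat F Φ (2 * M + 4) e)
    (hε₁ : 0 ≤ ε₁) (heq : ∀ x t, F' x t = F x t + ε₁ * cb p x)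
    (hsmall : 2 * e ≤ 1 / 40000) {v m : ℝ}
    (hm : ∀ η, |η - v| ≤ 1 / 64 → cb p η ≤ m) :
    ker F' (0:ℝ) 0 1 v v ≤ ker F (0:ℝ) 0 1 v v + ε₁ * m := by
  apply le_of_forall_pos_le_add
  intro ε hε
  obtain ⟨u, hu, hz, hact⟩ := exists_act_lt hF (0:ℝ) one_pos v v
    (lt_min hε (by norm_num : (0:ℝ) < 1 / 40000))
  have m1 := min_le_left ε (1 / 40000)
  have m2 := min_le_right ε (1 / 40000)
  have hst : ∀ t ∈ Icc (0:ℝ) 1, |traj 0 v u t - v| ≤ 1 / 64 := fun t ht =>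
    stay_close hF hF hb hM hflat (fun _ _ => le_refl _) (fun _ _ => by simp) (ε₁ := 0)
      (ε' := min ε (1 / 40000)) (m2.trans (by norm_num)) (by linarith) hu hact.le ht
  have h1 := ker_le_act' hF' (0:ℝ) one_pos hu hz
  rw [act_eq hF' _ _ _ _ hu] at h1
  rw [act_eq hF _ _ _ _ hu] at hact
  have h2 : (∫ t in (0:ℝ)..1, F' (traj 0 v u t) t) ≤ ∫ t in (0:ℝ)..1, (F (traj 0 v u t) t + ε₁ * m) := by
    apply integral_mono_on zero_le_one (f_traj_ii hF' hu 0 v 0 1) ((f_traj_ii hF hu 0 v 0 1).add (by simp))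
    intro t ht
    rw [heq]
    have := mul_le_mul_of_nonneg_left (hm _ (hst t ht)) hε₁
    linarith
  rw [integral_add (f_traj_ii hF hu 0 v 0 1) (by simp)] at h2
  simp only [intervalIntegral.integral_const, sub_zero, smul_eq_mul, one_mul] at h2
  linarith

/-- density of the union of the data classes over the moving frames -/
theorem dat_dense (hd : 0 < d) {f : E → ℝ → ℝ} (hf : L.IsPot f) (N : L.SmNorm) {ε : ℝ} (hε : 0 < ε) :
    ∃ G, L.IsSm G ∧ N.nm G < ε ∧ ∃ (l : ℕ) (p β Φ : ℚ) (M0 : ℕ),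
      L.Dat (p : ℝ) (β : ℝ) (Φ : ℝ) (M0 : ℝ) (L.mf l (fun x t => f x t + G x t)) := by
  obtain ⟨M, hM⟩ := isPot_good L hf
  have hM0 := hM.pos
  set F := L.fbar f with hFdef
  have hF : Good M F := good_fbar L hM
  have hFper : ∀ η t, F (η + 1) t = F η t := fbar_per L hf.perb hf.perg
  set C0 : ℝ := 2 * (M + 1) + 4 with hC0
  have hC0' : 0 ≤ C0 := by positivity
  -- choose the frame
  obtain ⟨l, hl1, hle⟩ : ∃ l : ℕ, 1 ≤ l ∧
      M * (Real.sqrt (2 * C0 / l) + 2 / l) + M * (1 / l) ≤ 1 / 1000000 := by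
    have hlim : Tendsto (fun l : ℕ => M * (Real.sqrt (2 * C0 / l) + 2 / l) + M * (1 / (l:ℝ))) atTop (𝓝 0) := by
      have h1 : Tendsto (fun s : ℕ => (2 * C0) / (s:ℝ)) atTop (𝓝 0) :=
        tendsto_const_nhds.div_atTop tendsto_natCast_atTop_atTop
      have h2 : Tendsto (fun s : ℕ => 2 / (s:ℝ)) atTop (𝓝 0) :=
        tendsto_const_nhds.div_atTop tendsto_natCast_atTop_atTop
      have h2' : Tendsto (fun s : ℕ => 1 / (s:ℝ)) atTop (𝓝 0) :=
        tendsto_const_nhds.div_atTop tendsto_natCast_atTop_atTop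
      have h3 : Tendsto (fun s : ℕ => Real.sqrt (2 * C0 / (s:ℝ))) atTop (𝓝 0) := by
        have := (Real.continuous_sqrt.tendsto 0).comp h1
        rwa [Real.sqrt_zero] at this
      have h4 := ((h3.add h2).const_mul M).add (h2'.const_mul M)
      simpa using h4
    obtain ⟨l, h1, h2⟩ := ((hlim.eventually (gt_mem_nhds (by norm_num : (0:ℝ) < 1 / 1000000))).and
      (eventually_ge_atTop 1)).exists
    exact ⟨l, h2, h1.le⟩
  set fl := L.mf l f with hfl
  have hflP : L.IsPot fl := isPot_mf L hf l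
  obtain ⟨M1, hM1⟩ := isPot_good L hflP
  set F1 := L.fbar fl with hF1def
  have hF1 : Good M1 F1 := good_fbar L hM1
  have hF1eq : ∀ η t, F1 η t = F (η + l * t) t := fbar_mf L hf.perb l
  have hF1b : ∀ η t, |F1 η t| ≤ M := fun η t => by rw [hF1eq]; exact hF.bd _ _
  set Φ0 := ∫ t in (0:ℝ)..1, Lat.avg1 (1:ℝ) F 0 t with hΦ0
  have hflat : Flat F1 Φ0 C0 (1 / 1000000) := by
    intro a u hu hE
    simp_rw [hF1eq]
    exact (mf_avg hF hFper hl1 hu hC0' hE).trans hle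
  -- base point
  obtain ⟨p0, -, hp0⟩ := exists_ebar_eq' L hflP 0
  -- the perturbation
  set G0 := gsm L l p0 with hG0
  have hG0S : L.IsSm G0 := isSm_gsm L l p0
  have hnm : 0 ≤ N.nm G0 := (abs_nonneg _).trans (N.sup_le G0 hG0S 0 0)
  set ε₁ : ℝ := min (1 / 1000000) (ε / (2 * (N.nm G0 + 1))) with hε₁
  have hε₁0 : 0 < ε₁ := lt_min (by norm_num) (by positivity)
  have hε₁1 : ε₁ ≤ 1 / 1000000 := min_le_left _ _
  have hε₁2 : ε₁ * N.nm G0 < ε := by
    have h1 : ε₁ ≤ ε / (2 * (N.nm G0 + 1)) := min_le_right _ _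
    calc ε₁ * N.nm G0 ≤ ε / (2 * (N.nm G0 + 1)) * (N.nm G0 + 1) := by gcongr; linarith
      _ = ε / 2 := by field_simp
      _ < ε := by linarith
  set G : E → ℝ → ℝ := fun x t => ε₁ * G0 x t with hG
  have hGS : L.IsSm G := by
    refine ⟨contDiff_const.mul hG0S.smooth, fun i x t => ?_, fun x t => ?_, fun x t => ?_⟩
    · simp only [hG]; rw [hG0S.perb]
    · simp only [hG]; rw [hG0S.perg]
    · simp only [hG]; rw [hG0S.pert]
  have hGn : N.nm G < ε := by
    have := N.smul_le ε₁ G0 hG0S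
    rw [abs_of_pos hε₁0] at this
    exact this.trans_lt hε₁2
  set f2 := L.mf l (fun x t => f x t + G x t) with hf2
  have hf2P : L.IsPot f2 := isPot_mf L (isPot_add_sm L hf hGS) l
  have hf2eq : f2 = fun x t => fl x t + ε₁ * cb p0 (L.y x) := by
    ext x t
    have := mf_gsm L l p0 x t
    simp only [hf2, hfl, Lat.mf, hG, hG0] at this ⊢
    rw [this]
  obtain ⟨M2, hM2⟩ := isPot_good L hf2P
  set F2 := L.fbar f2 with hF2def
  have hF2 : Good M2 F2 := good_fbar L hM2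
  have hF2eq : ∀ η t, F2 η t = F1 η t + ε₁ * cb p0 η := by
    intro η t
    simp only [hF2def, hF1def, Lat.fbar]
    rw [hf2eq]
    have := avgN_add_inv L (A := fl) (B := fun x _ => ε₁ * cb p0 (L.y x)) hM1
      (fun i r x t => by rw [L.y_add, L.y_smul, L.y_b, mul_zero, add_zero]) d (η • L.e) t
    rw [this, L.y_smul, L.y_e, mul_one]
  have g1 := hF1.mono (le_max_left M1 M2)
  have g2 := hF2.mono (le_max_right M1 M2)
  have hF2b : ∀ η t, |F2 η t| ≤ M + 1 := by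
    intro η t
    rw [hF2eq]
    have h1 := abs_le.mp (hF1b η t)
    have h2 := mul_nonneg hε₁0.le (cb_nonneg p0 η)
    have h3 := mul_le_mul_of_nonneg_left (cb_le_two p0 η) hε₁0.le
    rw [abs_le]; constructor <;> linarith [h1.1, h1.2]
  have hF1b' : ∀ η t, |F1 η t| ≤ M + 1 := fun η t => (hF1b η t).trans (by linarith)
  -- comparison of the kernels
  have hS1 : ∀ a b, L.S fl a b = ker F1 (0:ℝ) 0 1 a b := fun _ _ => rfl
  have hS2 : ∀ a b, L.S f2 a b = ker F2 (0:ℝ) 0 1 a b := fun _ _ => rfl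
  have hup : L.S f2 p0 p0 ≤ L.ebar fl + ε₁ * (5 / 1000) := by
    rw [← hp0, hS1, hS2]
    exact diag_le g1 g2 hF1b' (by linarith) hflat hε₁0.le hF2eq (by norm_num)
      (fun η hη => cb_small hη)
  -- rational parameters
  obtain ⟨p, hp1, hp2⟩ := exists_rat_btwn (show p0 - 1 / 64 < p0 + 1 / 64 by linarith)
  obtain ⟨Φ, hΦ1, hΦ2⟩ := exists_rat_btwn (show Φ0 - 1 / 1000000 < Φ0 + 1 / 1000000 by linarith)
  obtain ⟨β, hβ1, hβ2⟩ := exists_rat_btwn (show (0:ℝ) < min (ε₁ / 20) (1 / 1000) from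
    lt_min (by positivity) (by norm_num))
  have hβ3 : (β:ℝ) < ε₁ / 20 := hβ2.trans_le (min_le_left _ _)
  have hβ4 : (β:ℝ) ≤ 1 / 1000 := (hβ2.trans_le (min_le_right _ _)).le
  obtain ⟨M0, hM01, hM02⟩ := averaging L hd hf2P (ε := (β:ℝ) ^ 2 / 400) (by positivity)
  refine ⟨G, hGS, hGn, l, p, β, Φ, ⌈M0⌉₊, ?_⟩
  refine ⟨hβ1, hβ4, hM01.trans (Nat.le_ceil M0), ⟨ε₁ / 20, hβ3, fun v hv1 hv2 => ?_⟩,
    ⟨4 / 1000000, by norm_num, fun η η' hη => ?_⟩, ⟨(β:ℝ) ^ 2 / 400, ?_, fun s hs z z' hz => ?_⟩⟩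
  · -- c1
    have hpp : |(p:ℝ) - p0| ≤ 1 / 64 := by rw [abs_le]; constructor <;> linarith
    have h1 : L.S fl v v + ε₁ * (9 / 128) ≤ L.S f2 v v := by
      rw [hS1, hS2]
      refine diag_ge g1 g2 hF2b (by linarith) hflat hε₁0.le hF2eq (by linarith) (fun η hη => ?_)
      have t1 : |v - p| ≤ |η - p0| + (1 / 64 + 1 / 64) := by
        have := abs_sub_le v η p
        have h5 := abs_sub_le η p0 p
        rw [abs_sub_comm v η] at this
        rw [abs_sub_comm p0 p] at h5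
        linarith
      have t2 : |η - p0| ≤ |v - p| + (1 / 64 + 1 / 64) := by
        have := abs_sub_le η v p0
        have h5 := abs_sub_le v p p0
        linarith
      apply cb_large
      · linarith
      · linarith
    have h2 := ebar_le L hflP v
    have h3 := ebar_le L hf2P p0
    linarith
  · -- c2
    have h1 : |ker F1 (0:ℝ) 0 1 η η' - Φ0 - (η' - η) ^ 2 / 2| ≤ 1 / 1000000 :=
      flat_ker g1 hF1b' (by linarith) hflat hη
    have h2 : |ker F2 (0:ℝ) 0 1 η η' - ker F1 (0:ℝ) 0 1 η η'| ≤ 2 / 1000000 * (1 - 0) := by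
      refine ker_sub_le g2 g1 (fun x t => ?_) (0:ℝ) one_pos η η'
      rw [hF2eq, add_sub_cancel_left, abs_of_nonneg (mul_nonneg hε₁0.le (cb_nonneg p0 x))]
      have := mul_le_mul hε₁1 (cb_le_two p0 x) (cb_nonneg p0 x) (by norm_num)
      linarith
    rw [hS2]
    have a1 := abs_le.mp h1
    have a2 := abs_le.mp h2
    rw [abs_le]; constructor <;> linarith [a1.1, a1.2, a2.1, a2.2]
  · have : (0:ℝ) < (β:ℝ) ^ 2 := by positivity
    linarith
  · exact hM02 s ((Nat.le_ceil M0).trans hs) z z' hz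

end ModuleA

end Esc
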