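import Pool.Agent.helper42.Esc.A1

/-!
Module A of the escape theorem (MP_6acca1_an), part 2: the averaging theorem and the averaged kernel.
-/

set_option linter.unusedSectionVars false

noncomputable section

namespace Esc

open MeasureTheory Set Filter Topology intervalIntegral
open scoped ContDiff

section ModuleA

variable {d : ℕ} {E : Type*} [NormedAddCommGroup E] [InnerProductSpace ℝ E] [FiniteDimensional ℝ E]
  (L : Lat d E)

theorem avg_error {M : ℝ} {f : E → ℝ → ℝ} (hf : Good M f) (hb : ∀ i x t, f (x + L.b i) t = f x t)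
    {s : ℝ} (hs : 1 ≤ s) {z : E} {u : ℝ → E} (hu : Adm u) {C0 : ℝ} (hC0 : 0 ≤ C0)
    (hE : (∫ t in (0:ℝ)..1, ‖u t - L.vel s‖ ^ 2 / 2) ≤ C0) :
    |(∫ t in (0:ℝ)..1, f (traj 0 z u t) t) - ∫ t in (0:ℝ)..1, L.fbar f (L.y (traj 0 z u t)) t|
      ≤ d * (M * (Real.sqrt (2 * C0 / s) + (L.Cb + 3) / s)) := by
  have key : ∀ k ≤ d, |(∫ t in (0:ℝ)..1, f (traj 0 z u t) t)
      - ∫ t in (0:ℝ)..1, L.avgN f k (traj 0 z u t) t|
      ≤ k * (M * (Real.sqrt (2 * C0 / s) + (L.Cb + 3) / s)) := by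
    intro k
    induction k with
    | zero => intro _; simp [Lat.avgN]
    | succ k ih =>
      intro hk
      have h1 := ih (by omega)
      have h2 := avgN_step L hf hb hs (k := k) (by omega) (z := z) hu hC0 hE
      have h3 := abs_sub_le (∫ t in (0:ℝ)..1, f (traj 0 z u t) t)
        (∫ t in (0:ℝ)..1, L.avgN f k (traj 0 z u t) t)
        (∫ t in (0:ℝ)..1, L.avgN f (k + 1) (traj 0 z u t) t)
      push_cast
      linarith
  have h := key d le_rfl
  simp_rw [avgN_proj L hb] at h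
  exact h

theorem Adm.y {u : ℝ → E} (hu : Adm u) : Adm (fun t => L.y (u t)) := by
  obtain ⟨hm, C, hC⟩ := hu
  exact ⟨L.y_cont.comp_stronglyMeasurable hm, C, fun t => (L.abs_y_le _).trans (hC t)⟩

theorem y_int {u : ℝ → E} (hu : Adm u) (a b : ℝ) : L.y (∫ t in a..b, u t) = ∫ t in a..b, L.y (u t) :=
  ((innerSL ℝ L.e).intervalIntegral_comp_comm (hu.ii a b)).symm

theorem y_traj {u : ℝ → E} (hu : Adm u) (a : ℝ) (z : E) (t : ℝ) :
    L.y (traj a z u t) = traj a (L.y z) (fun t => L.y (u t)) t := by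
  unfold traj
  rw [L.y_add, y_int L hu]

theorem P_cont : Continuous L.P := by
  unfold Lat.P
  exact continuous_id.sub (L.y_cont.smul continuous_const)

theorem norm_P_le (x : E) : ‖L.P x‖ ≤ ‖x‖ := by
  have := L.norm_sq_eq x
  have h1 := norm_nonneg (L.P x)
  have h2 := norm_nonneg x
  nlinarith [sq_nonneg (L.y x)]

theorem Adm.P {u : ℝ → E} (hu : Adm u) : Adm (fun t => L.P (u t)) := by
  obtain ⟨hm, C, hC⟩ := hu
  exact ⟨(P_cont L).comp_stronglyMeasurable hm, C, fun t => (norm_P_le L _).trans (hC t)⟩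

theorem Adm.smul_vec {η : ℝ → ℝ} (hη : Adm η) (e : E) : Adm (fun t => η t • e) := by
  obtain ⟨hm, C, hC⟩ := hη
  refine ⟨hm.smul_const _, C * ‖e‖, fun t => ?_⟩
  rw [norm_smul]
  gcongr
  exact hC t

theorem P_int {u : ℝ → E} (hu : Adm u) (a b : ℝ) : L.P (∫ t in a..b, u t) = ∫ t in a..b, L.P (u t) := by
  unfold Lat.P
  rw [integral_sub (hu.ii a b), y_int L hu, ← intervalIntegral.integral_smul_const]
  exact ((hu.y L).smul_vec _).ii a b

/-- splitting of the energy -/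
theorem energy_split {u : ℝ → E} (hu : Adm u) (s : ℝ) :
    (∫ t in (0:ℝ)..1, ‖u t - L.vel s‖ ^ 2 / 2) = (∫ t in (0:ℝ)..1, ‖L.P (u t - L.vel s)‖ ^ 2 / 2)
      + ∫ t in (0:ℝ)..1, ‖L.y (u t) - 0‖ ^ 2 / 2 := by
  rw [← integral_add (((hu.sub_const _).P L).sq_ii 0 1) (((hu.y L).sub_const 0).sq_ii 0 1)]
  congr 1
  ext t
  rw [L.norm_sq_eq (u t - L.vel s), L.y_sub, L.y_vel, sub_zero, Real.norm_eq_abs, sq_abs]
  ring

theorem dpart_bdd (s : ℝ) (z z' : E) :
    BddBelow (range fun n : Fin d → ℤ => ‖L.P (z' - z) + L.lv n - L.vel s‖ ^ 2 / 2) := by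
  refine ⟨0, ?_⟩
  rintro _ ⟨n, rfl⟩
  positivity

theorem dpart_le (s : ℝ) (z z' : E) (n : Fin d → ℤ) :
    L.dpart s z z' ≤ ‖L.P (z' - z) + L.lv n - L.vel s‖ ^ 2 / 2 := ciInf_le (dpart_bdd L s z z') n

theorem dpart_le_Cb (s : ℝ) (z z' : E) : L.dpart s z z' ≤ L.Cb ^ 2 / 2 := by
  obtain ⟨n, θ, hθ, e⟩ := L.exists_red (x := L.P (z' - z) - L.vel s)
    (by rw [L.y_sub, L.y_P, L.y_vel]; ring)
  refine (dpart_le L s z z' n).trans ?_
  have : L.P (z' - z) + L.lv n - L.vel s = L.P (z' - z) - L.vel s + L.lv n := by abel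
  rw [this, e]
  have := L.comb_le hθ
  have := norm_nonneg (∑ i, θ i • L.b i)
  gcongr

theorem averaging_aux {M : ℝ} {f : E → ℝ → ℝ} (hf : Good M f) (hb : ∀ i x t, f (x + L.b i) t = f x t)
    {s : ℝ} (hs : 1 ≤ s) {z z' : E} (hz : |L.y z - L.y z'| ≤ 2) :
    |L.kbar f s z z' - L.dpart s z z' - L.S f (L.y z) (L.y z')| ≤
      d * (M * (Real.sqrt (2 * ((L.Cb + 2) ^ 2 + 2 * M + 4) / s) + (L.Cb + 3) / s)) := by
  set C0 : ℝ := (L.Cb + 2) ^ 2 + 2 * M + 4 with hC0
  have hM := hf.pos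
  have hCb := L.Cb_nonneg
  have hC0' : 0 ≤ C0 := by positivity
  set err := d * (M * (Real.sqrt (2 * C0 / s) + (L.Cb + 3) / s)) with herr
  have hF := good_fbar L hf
  rw [abs_le]
  constructor
  · -- lower bound
    have : L.dpart s z z' + L.S f (L.y z) (L.y z') ≤ L.kbar f s z z' + err := by
      apply le_of_forall_pos_le_add
      intro ε hε
      obtain ⟨n, hn⟩ := kbar_attained L hf s z z'
      obtain ⟨u, hu, hzu, hact⟩ := exists_act_lt hf (L.vel s) one_pos z (z' + L.lv n)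
        (lt_min hε one_pos)
      rw [← hn] at hact
      have hE := energy_le_act hf (L.vel s) zero_le_one z hu
      have hk := kbar_le_of L hf s hz
      have hE' : (∫ t in (0:ℝ)..1, ‖u t - L.vel s‖ ^ 2 / 2) ≤ C0 := by
        have := min_le_right ε 1
        rw [hC0]
        nlinarith [sq_nonneg (L.Cb + 2)]
      have herr2 := avg_error L hf hb hs (z := z) hu hC0' hE'
      rw [← herr] at herr2
      have h1 := act_eq hf (L.vel s) 0 1 z hu
      rw [energy_split L hu s] at h1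
      -- fast part
      have h2 := jensen ((hu.sub_const (L.vel s)).P L) (zero_lt_one' ℝ)
      have h3 : (∫ t in (0:ℝ)..1, L.P (u t - L.vel s)) = L.P (z' - z) + L.lv n - L.vel s := by
        rw [← P_int L (hu.sub_const (L.vel s)), integral_sub (hu.ii 0 1) (by simp)]
        have : (∫ t in (0:ℝ)..1, u t) = z' + L.lv n - z := by
          rw [← hzu]; unfold traj; abel
        rw [this]
        simp only [intervalIntegral.integral_const, sub_zero, one_smul]
        rw [L.P_sub, L.P_vel, L.P_sub, L.P_add, L.P_lv, L.P_sub]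
        abel
      rw [h3] at h2
      have h4 := dpart_le L s z z' n
      -- slow part
      have h5 : L.S f (L.y z) (L.y z') ≤ act (L.fbar f) 0 0 1 (L.y z) (fun t => L.y (u t)) := by
        apply ker_le_act' hF (0:ℝ) one_pos (hu.y L)
        rw [← y_traj L hu, hzu, L.y_add, L.y_lv, add_zero]
      rw [act_eq hF (0:ℝ) 0 1 (L.y z) (hu.y L)] at h5
      have h6 : (∫ t in (0:ℝ)..1, L.fbar f (L.y (traj 0 z u t)) t)
          = ∫ t in (0:ℝ)..1, L.fbar f (traj 0 (L.y z) (fun t => L.y (u t)) t) t := by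
        congr 1; ext t; rw [y_traj L hu]
      rw [h6] at herr2
      have h7 := (abs_le.mp herr2).1
      have := min_le_left ε 1
      rw [sub_zero, mul_one] at h2
      linarith
    linarith
  · -- upper bound
    have : L.kbar f s z z' ≤ L.dpart s z z' + L.S f (L.y z) (L.y z') + err := by
      apply le_of_forall_pos_le_add
      intro ε hε
      have hε2 : 0 < min (ε / 2) 1 := lt_min (half_pos hε) one_pos
      obtain ⟨n, hn⟩ : ∃ n : Fin d → ℤ, ‖L.P (z' - z) + L.lv n - L.vel s‖ ^ 2 / 2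
          < L.dpart s z z' + min (ε / 2) 1 := by
        apply exists_lt_of_ciInf_lt
        show L.dpart s z z' < _
        linarith
      obtain ⟨η, hη, hzη, hactη⟩ := exists_act_lt hF (0:ℝ) one_pos (L.y z) (L.y z') hε2
      set u : ℝ → E := fun t => (L.P (z' - z) + L.lv n) + η t • L.e with hu_def
      have hu : Adm u := by
        obtain ⟨hm, C, hC⟩ := hη
        refine ⟨stronglyMeasurable_const.add (hm.smul_const _), ‖L.P (z' - z) + L.lv n‖ + C, fun t => ?_⟩
        refine (norm_add_le _ _).trans ?_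
        gcongr
        rw [norm_smul, L.norm_e, mul_one]; exact hC t
      have hyu : ∀ t, L.y (u t) = η t := by
        intro t
        rw [hu_def]
        simp only
        rw [L.y_add, L.y_add, L.y_P, L.y_lv, L.y_smul, L.y_e]; ring
      have hyu' : (fun t => L.y (u t)) = η := funext hyu
      have hPu : ∀ t, L.P (u t - L.vel s) = L.P (z' - z) + L.lv n - L.vel s := by
        intro t
        rw [L.P_sub, L.P_vel, hu_def]
        simp only
        rw [L.P_add, L.P_smul, L.P_e, smul_zero, add_zero, L.P_of_y]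
        rw [L.y_add, L.y_P, L.y_lv]; ring
      have hzu : traj 0 z u 1 = z' + L.lv n := by
        have e1 : L.y (traj 0 z u 1) = L.y z' := by
          rw [y_traj L hu, hyu', hzη]
        have e2 : L.P (traj 0 z u 1) = L.P z' + L.lv n := by
          unfold traj
          rw [L.P_add, P_int L hu]
          have : ∀ t, L.P (u t) = L.P (z' - z) + L.lv n := by
            intro t
            have := hPu t
            rw [L.P_sub, L.P_vel] at this
            exact sub_left_injective this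
          simp_rw [this]
          simp only [intervalIntegral.integral_const, sub_zero, one_smul]
          rw [L.P_sub]; abel
        rw [← L.P_add_y (traj 0 z u 1), e1, e2]
        have := L.P_add_y z'
        calc L.P z' + L.lv n + L.y z' • L.e = (L.P z' + L.y z' • L.e) + L.lv n := by abel
          _ = _ := by rw [this]
      have h1 := (kbar_le_ker L hf s z z' n).trans (ker_le_act' hf (L.vel s) one_pos hu hzu)
      rw [act_eq hf (L.vel s) 0 1 z hu, energy_split L hu s] at h1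
      simp_rw [hPu, hyu] at h1
      rw [act_eq hF (0:ℝ) 0 1 (L.y z) hη] at hactη
      have hSup := ker_upper hF (0:ℝ) one_pos (L.y z) (L.y z')
      have hd := dpart_le_Cb L s z z'
      have h0 := (abs_le.mp (f_int_bd hF (u := η) 0 (L.y z) zero_le_one)).1
      have hmin := min_le_right (ε / 2) 1
      have hmin' := min_le_left (ε / 2) 1
      have hyy : ‖L.y z' - L.y z - ((1:ℝ) - 0) • (0:ℝ)‖ ^ 2 ≤ 2 ^ 2 := by
        rw [smul_zero, sub_zero, Real.norm_eq_abs, abs_sub_comm]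
        gcongr
      have hE' : (∫ t in (0:ℝ)..1, ‖u t - L.vel s‖ ^ 2 / 2) ≤ C0 := by
        rw [energy_split L hu s]
        simp_rw [hPu, hyu]
        simp only [intervalIntegral.integral_const, sub_zero, one_smul]
        have : ∀ t, ‖η t‖ ^ 2 / 2 = ‖η t - 0‖ ^ 2 / 2 := fun t => by rw [sub_zero]
        simp_rw [this]
        rw [hC0]
        norm_num at hSup hyy h0 hactη ⊢
        nlinarith [sq_nonneg (L.Cb + 2)]
      have herr2 := avg_error L hf hb hs (z := z) hu hC0' hE'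
      rw [← herr] at herr2
      have h6 : (∫ t in (0:ℝ)..1, L.fbar f (L.y (traj 0 z u t)) t)
          = ∫ t in (0:ℝ)..1, L.fbar f (traj 0 (L.y z) η t) t := by
        congr 1; ext t; rw [y_traj L hu, hyu']
      rw [h6] at herr2
      have h7 := (abs_le.mp herr2).2
      simp only [intervalIntegral.integral_const, sub_zero, smul_eq_mul] at h1 hactη h7 ⊢
      have : L.S f (L.y z) (L.y z') = ker (L.fbar f) 0 0 1 (L.y z) (L.y z') := rfl
      linarith
    linarith

theorem averaging (_hd : 0 < d) {f : E → ℝ → ℝ} (hf : L.IsPot f) {ε : ℝ} (hε : 0 < ε) :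
    ∃ M0 : ℝ, 1 ≤ M0 ∧ ∀ s, M0 ≤ s → ∀ z z', |L.y z - L.y z'| ≤ 2 →
      |L.kbar f s z z' - L.dpart s z z' - L.S f (L.y z) (L.y z')| ≤ ε := by
  obtain ⟨M, hM⟩ := isPot_good L hf
  have hlim : Tendsto (fun s : ℝ => d * (M * (Real.sqrt (2 * ((L.Cb + 2) ^ 2 + 2 * M + 4) / s)
      + (L.Cb + 3) / s))) atTop (𝓝 0) := by
    have h1 : Tendsto (fun s : ℝ => (2 * ((L.Cb + 2) ^ 2 + 2 * M + 4)) / s) atTop (𝓝 0) :=
      tendsto_const_nhds.div_atTop tendsto_id
    have h2 : Tendsto (fun s : ℝ => (L.Cb + 3) / s) atTop (𝓝 0) :=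
      tendsto_const_nhds.div_atTop tendsto_id
    have h3 : Tendsto (fun s : ℝ => Real.sqrt (2 * ((L.Cb + 2) ^ 2 + 2 * M + 4) / s)) atTop (𝓝 0) := by
      have := (Real.continuous_sqrt.tendsto 0).comp h1
      rwa [Real.sqrt_zero] at this
    have h4 := ((h3.add h2).const_mul M).const_mul (d : ℝ)
    simpa using h4
  obtain ⟨S0, hS0⟩ := ((hlim.eventually (gt_mem_nhds hε)).and (eventually_ge_atTop 1)).exists_forall_of_atTop
  refine ⟨max S0 1, le_max_right _ _, fun s hs z z' hz => ?_⟩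
  obtain ⟨h1, h2⟩ := hS0 s ((le_max_left _ _).trans hs)
  exact (averaging_aux L hM hf.perb h2 hz).trans h1.le

/-! ### the averaged kernel -/

theorem S_sub_le {f f' : E → ℝ → ℝ} (hf : L.IsPot f) (hf' : L.IsPot f') {ρ : ℝ}
    (h : ∀ x t, |f x t - f' x t| ≤ ρ) (η η' : ℝ) : |L.S f η η' - L.S f' η η'| ≤ ρ := by
  obtain ⟨M, hM⟩ := isPot_good L hf
  obtain ⟨M', hM'⟩ := isPot_good L hf'
  have h1 := hM.mono (le_max_left M M')
  have h2 := hM'.mono (le_max_right M M')
  have := ker_sub_le (good_fbar L h1) (good_fbar L h2) (fbar_sub_le L h1 h2 h) (0:ℝ) one_pos η η'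
  simpa [Lat.S] using this

theorem S_continuous {f : E → ℝ → ℝ} (hf : L.IsPot f) : Continuous (fun q : ℝ × ℝ => L.S f q.1 q.2) := by
  obtain ⟨M, hM⟩ := isPot_good L hf
  exact ker_continuous (good_fbar L hM) (0:ℝ) one_pos

theorem S_per {f : E → ℝ → ℝ} (hf : L.IsPot f) (η η' : ℝ) : L.S f (η + 1) (η' + 1) = L.S f η η' :=
  ker_translate (1:ℝ) (fun x t => fbar_per L hf.perb hf.perg x t) 0 0 1 η η'

/-- crossing property of one-dimensional kernels -/
theorem ker_cross {M : ℝ} {F : ℝ → ℝ → ℝ} (hF : Good M F) {a b a' b' : ℝ} (h : a ≤ b) (h' : a' ≤ b') :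
    ker F (0:ℝ) 0 1 a a' + ker F (0:ℝ) 0 1 b b' ≤ ker F (0:ℝ) 0 1 a b' + ker F (0:ℝ) 0 1 b a' := by
  apply le_of_forall_pos_le_add
  intro ε hε
  obtain ⟨u₁, h₁, e₁, l₁⟩ := exists_act_lt hF (0:ℝ) one_pos a b' (half_pos hε)
  obtain ⟨u₂, h₂, e₂, l₂⟩ := exists_act_lt hF (0:ℝ) one_pos b a' (half_pos hε)
  -- crossing time
  obtain ⟨τ, hτ, hτe⟩ : ∃ τ ∈ Icc (0:ℝ) 1, traj 0 a u₁ τ = traj 0 b u₂ τ := by
    have hc : ContinuousOn (fun t => traj 0 b u₂ t - traj 0 a u₁ t) (Icc 0 1) :=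
      ((traj_cont h₂ 0 b).sub (traj_cont h₁ 0 a)).continuousOn
    have hmem : (0:ℝ) ∈ Icc ((fun t => traj 0 b u₂ t - traj 0 a u₁ t) 1)
        ((fun t => traj 0 b u₂ t - traj 0 a u₁ t) 0) := by
      simp only [e₁, e₂]
      constructor
      · linarith
      · simp [traj]; exact h
    obtain ⟨τ, hτ, e⟩ := intermediate_value_Icc' zero_le_one hc hmem
    exact ⟨τ, hτ, by simp only at e; linarith⟩
  have k1 : ker F (0:ℝ) 0 1 a a' ≤ act F 0 0 1 a (cat τ u₁ u₂) := by
    apply ker_le_act' hF _ one_pos (h₁.cat h₂ τ)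
    rw [traj_cat_right h₁ h₂ hτ.1 hτ.2, hτe, ← traj_split h₂, e₂]
  have k2 : ker F (0:ℝ) 0 1 b b' ≤ act F 0 0 1 b (cat τ u₂ u₁) := by
    apply ker_le_act' hF _ one_pos (h₂.cat h₁ τ)
    rw [traj_cat_right h₂ h₁ hτ.1 hτ.2, ← hτe, ← traj_split h₁, e₁]
  rw [act_cat hF _ hτ.1 hτ.2 a h₁ h₂, hτe] at k1
  rw [act_cat hF _ hτ.1 hτ.2 b h₂ h₁, ← hτe] at k2
  rw [act_split hF _ 0 τ 1 a h₁] at l₁
  rw [act_split hF _ 0 τ 1 b h₂] at l₂
  rw [hτe] at l₁ k2
  linarith

/-- crossing (Monge) property -/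
theorem S_cross {f : E → ℝ → ℝ} (hf : L.IsPot f) {a b a' b' : ℝ} (h : a ≤ b) (h' : a' ≤ b') :
    L.S f a a' + L.S f b b' ≤ L.S f a b' + L.S f b a' := by
  obtain ⟨M, hM⟩ := isPot_good L hf
  exact ker_cross (good_fbar L hM) h h'

theorem diag_bdd {f : E → ℝ → ℝ} (hf : L.IsPot f) : BddBelow (range fun η : ℝ => L.S f η η) := by
  obtain ⟨M, hM⟩ := isPot_good L hf
  refine ⟨-M, ?_⟩
  rintro _ ⟨η, rfl⟩
  exact ker_ge_neg (good_fbar L hM) _ _ _

theorem ebar_le {f : E → ℝ → ℝ} (hf : L.IsPot f) (v : ℝ) : L.ebar f ≤ L.S f v v :=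
  ciInf_le (diag_bdd L hf) v

theorem exists_ebar_eq' {f : E → ℝ → ℝ} (hf : L.IsPot f) (p : ℝ) :
    ∃ v, |v - p| ≤ 1 / 2 ∧ L.S f v v = L.ebar f := by
  have hc : Continuous (fun v : ℝ => L.S f v v) :=
    (S_continuous L hf).comp (continuous_id.prodMk continuous_id)
  obtain ⟨v, hv, hmin⟩ := (isCompact_Icc (a := p - 1 / 2) (b := p + 1 / 2)).exists_isMinOn
    ⟨p, by constructor <;> linarith⟩ hc.continuousOn
  refine ⟨v, by rw [abs_le]; constructor <;> linarith [hv.1, hv.2], le_antisymm ?_ (ebar_le L hf v)⟩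
  apply le_ciInf
  intro w
  -- reduce w modulo 1
  have hper : Function.Periodic (fun v : ℝ => L.S f v v) 1 := fun v => S_per L hf v v
  set k : ℤ := ⌊w - p + 1 / 2⌋ with hk
  have h1 := Int.floor_le (w - p + 1 / 2)
  have h2 := Int.lt_floor_add_one (w - p + 1 / 2)
  rw [← hk] at h1 h2
  have h3 : w - k ∈ Icc (p - 1 / 2) (p + 1 / 2) := by constructor <;> linarith
  have h4 := hmin h3
  simp only [mem_ofPred_eq] at h4
  have h5 := hper.sub_int_mul_eq k (x := w)
  simp only [mul_one] at h5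
  rw [h5] at h4
  exact h4

theorem exists_ebar_eq {f : E → ℝ → ℝ} (hf : L.IsPot f) (p : ℝ) :
    ∃ v, |v - p| ≤ 7 / 8 ∧ L.S f v v = L.ebar f := by
  obtain ⟨v, hv, h⟩ := exists_ebar_eq' L hf p
  exact ⟨v, hv.trans (by norm_num), h⟩

theorem ebar_sub_le {f f' : E → ℝ → ℝ} (hf : L.IsPot f) (hf' : L.IsPot f') {ρ : ℝ}
    (h : ∀ x t, |f x t - f' x t| ≤ ρ) : |L.ebar f - L.ebar f'| ≤ ρ := by
  obtain ⟨v, -, hv⟩ := exists_ebar_eq' L hf 0
  obtain ⟨v', -, hv'⟩ := exists_ebar_eq' L hf' 0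
  have h1 := ebar_le L hf v'
  have h2 := ebar_le L hf' v
  have h3 := abs_le.mp (S_sub_le L hf hf' h v v)
  have h4 := abs_le.mp (S_sub_le L hf hf' h v' v')
  rw [abs_le]; constructor <;> linarith [h3.1, h3.2, h4.1, h4.2]

/-- the data class is `C^0`-open -/
theorem dat_open {p β Φ M0 : ℝ} {f : E → ℝ → ℝ} (hf : L.IsPot f) (h : L.Dat p β Φ M0 f) :
    ∃ ρ > 0, ∀ f', L.IsPot f' → (∀ x t, |f x t - f' x t| ≤ ρ) → L.Dat p β Φ M0 f' := by
  obtain ⟨β', hβ', hc1⟩ := h.c1
  obtain ⟨κ2, hκ2, hc2⟩ := h.c2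
  obtain ⟨κ3, hκ3, hc3⟩ := h.c3
  set ρ := min ((β' - β) / 4) (min ((1 / 2000 - κ2) / 2) ((β ^ 2 / 200 - κ3) / 4)) with hρ
  have hρ0 : 0 < ρ := by
    rw [hρ]
    refine lt_min (by linarith) (lt_min (by linarith) (by linarith))
  have r1 : ρ ≤ (β' - β) / 4 := min_le_left _ _
  have r2 : ρ ≤ (1 / 2000 - κ2) / 2 := (min_le_right _ _).trans (min_le_left _ _)
  have r3 : ρ ≤ (β ^ 2 / 200 - κ3) / 4 := (min_le_right _ _).trans (min_le_right _ _)
  refine ⟨ρ, hρ0, fun f' hf' hff => ?_⟩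
  obtain ⟨M, hM⟩ := isPot_good L hf
  obtain ⟨M', hM'⟩ := isPot_good L hf'
  have g1 := hM.mono (le_max_left M M')
  have g2 := hM'.mono (le_max_right M M')
  refine ⟨h.β_pos, h.β_le, h.M0_ge, ⟨β' - 2 * ρ, by linarith, fun v hv1 hv2 => ?_⟩,
    ⟨κ2 + ρ, by linarith, fun η η' hη => ?_⟩, ⟨κ3 + 2 * ρ, by linarith, fun s hs z z' hz => ?_⟩⟩
  · have := hc1 v hv1 hv2
    have a1 := abs_le.mp (ebar_sub_le L hf hf' hff)
    have a2 := abs_le.mp (S_sub_le L hf hf' hff v v)
    linarith [a1.1, a2.2]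
  · have := abs_le.mp (hc2 η η' hη)
    have a2 := abs_le.mp (S_sub_le L hf hf' hff η η')
    rw [abs_le]; constructor <;> linarith [this.1, this.2, a2.1, a2.2]
  · have := abs_le.mp (hc3 s hs z z' hz)
    have a2 := abs_le.mp (S_sub_le L hf hf' hff (L.y z) (L.y z'))
    have a3 := abs_le.mp (kbar_sub_le L g1 g2 hff s z z')
    rw [abs_le]; constructor <;> linarith [this.1, this.2, a2.1, a2.2, a3.1, a3.2]

theorem isPot_mf {f : E → ℝ → ℝ} (hf : L.IsPot f) (l : ℕ) : L.IsPot (L.mf l f) where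
  smooth := by
    unfold Lat.mf
    exact hf.smooth.comp ((contDiff_fst.add ((contDiff_const.mul contDiff_snd).smul
      contDiff_const)).prodMk contDiff_snd)
  perb i x t := by
    unfold Lat.mf
    rw [add_right_comm, hf.perb]
  perg x t := by
    unfold Lat.mf
    rw [add_right_comm, hf.perg]
  pert x t := by
    unfold Lat.mf
    have hg : ∀ (k : ℕ) (x : E) (t : ℝ), f (x + (k : ℝ) • L.g) t = f x t := by
      intro k
      induction k with
      | zero => intro x t; simp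
      | succ k ih =>
        intro x t
        push_cast
        rw [add_smul, one_smul, ← add_assoc, hf.perg, ih]
    rw [mul_add, mul_one, add_smul, ← add_assoc, hf.pert, hg]

end ModuleA

end Esc
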